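import Pool.Agent.R385.MW.Bdry

/-!
# The inequality for all intervals, and its consequences
-/

set_option autoImplicit false

namespace Pool.Agent.R385.MW

open MeasureTheory Finset intervalIntegral Filter Topology Pool.Agent.R385.MC Pool.Agent.R385.DT
  Pool.Agent.W350.Edge Polynomial

/-- **The inequality for all intervals.** -/
theorem weights : ∃ K : ℝ, 0 < K ∧ ∀ (w : ℤ) (N : ℕ) (B : ℕ → ℂ[X]) (P : ℕ),
    PureFrom w N B P → ∀ δ t h : ℝ, |δ| * N < 1 → 0 < h →
    ∫⁻ τ in Set.Icc (t - h) (t + h), ENNReal.ofReal (modulus w (cut B P) τ ^ δ) ≤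
      ENNReal.ofReal (K / (1 - |δ| * N) * (2 * h) * ‖LFun (cut B P) (edge w t + h)‖ ^ δ) := by
  obtain ⟨K, r, hK, hr, hb⟩ := bdry
  obtain ⟨c, hc, htriv⟩ := triv_bound hr
  refine ⟨K * Real.exp (2 * c), by positivity, ?_⟩
  intro w N B P hB δ t h hδ hh
  have hδ' : 0 < 1 - |δ| * N := by linarith
  have he1 : 1 ≤ Real.exp (2 * c) := Real.one_le_exp (by positivity)
  rcases le_or_gt h r with hhr | hhr
  · refine (hb w N B P hB δ t h hδ hh hhr).trans (ENNReal.ofReal_le_ofReal ?_)
    refine mul_le_mul_of_nonneg_right ?_ (Real.rpow_nonneg (norm_nonneg _) _)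
    rw [div_mul_eq_mul_div]
    refine div_le_div_of_nonneg_right ?_ hδ'.le
    nlinarith [mul_pos hK hh]
  · set n : ℕ := ⌈h / r⌉₊ with hn
    have hn1 : h / r ≤ n := Nat.le_ceil _
    have hn2 : (n : ℝ) < h / r + 1 := Nat.ceil_lt_add_one (by positivity)
    have hnr1 : h ≤ n * r := by
      rw [div_le_iff₀ hr] at hn1
      exact hn1
    have hnr2 : n * r ≤ 2 * h := by
      have h1 : (n : ℝ) * r < (h / r + 1) * r := mul_lt_mul_of_pos_right hn2 hr
      have h2 : (h / r + 1) * r = h + r := by field_simp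
      linarith
    have hL : ∀ (τ ε : ℝ), 0 < ε → 0 < ‖LFun (cut B P) (edge w τ + ε)‖ :=
      fun τ ε hε => norm_pos_iff.2 (log_cut hB τ hε).2
    have hcmp : ∀ s : ℝ, ‖LFun (cut B P) (edge w s + r)‖ ^ δ ≤
        Real.exp (2 * c) * ‖LFun (cut B P) (edge w t + h)‖ ^ δ := by
      intro s
      rw [Real.rpow_def_of_pos (hL _ _ hr), Real.rpow_def_of_pos (hL _ _ hh), ← Real.exp_add]
      refine Real.exp_le_exp.2 ?_
      have h1 := htriv w N B P hB s r le_rfl
      have h2 := htriv w N B P hB t h hhr.le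
      set X1 := Real.log ‖LFun (cut B P) (edge w s + r)‖
      set X2 := Real.log ‖LFun (cut B P) (edge w t + h)‖
      have h3 : (X1 - X2) * δ ≤ 2 * c := by
        calc (X1 - X2) * δ ≤ |(X1 - X2) * δ| := le_abs_self _
          _ = |X1 - X2| * |δ| := abs_mul _ _
          _ ≤ (c * N + c * N) * |δ| := by
              refine mul_le_mul_of_nonneg_right ?_ (abs_nonneg _)
              exact (abs_sub _ _).trans (add_le_add h1 h2)
          _ = (|δ| * N) * (2 * c) := by ring
          _ ≤ 1 * (2 * c) := mul_le_mul_of_nonneg_right hδ.le (by positivity)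
          _ = 2 * c := one_mul _
      linarith
    have hcov : Set.Icc (t - h) (t + h) ⊆ ⋃ j : Fin n,
        Set.Icc ((t - h + (2 * (j : ℕ) + 1) * r) - r) ((t - h + (2 * (j : ℕ) + 1) * r) + r) := by
      intro τ hτ
      have hn0 : 0 < n := by
        rcases Nat.eq_zero_or_pos n with h0 | h0
        · rw [h0] at hnr1
          push_cast at hnr1
          linarith
        · exact h0
      have hy0 : 0 ≤ (τ - (t - h)) / (2 * r) := by
        have := hτ.1
        have h1 : 0 ≤ τ - (t - h) := by linarith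
        positivity
      set j := ⌊(τ - (t - h)) / (2 * r)⌋₊ with hj
      have hj1 : (j : ℝ) ≤ (τ - (t - h)) / (2 * r) := Nat.floor_le hy0
      have hj2 : (τ - (t - h)) / (2 * r) < j + 1 := Nat.lt_floor_add_one _
      rw [le_div_iff₀ (by positivity)] at hj1
      rw [div_lt_iff₀ (by positivity)] at hj2
      rw [Set.mem_iUnion]
      rcases lt_or_ge j n with hjn | hjn
      · refine ⟨⟨j, hjn⟩, ?_, ?_⟩
        · simp only
          linarith
        · simp only
          linarith
      · refine ⟨⟨n - 1, by omega⟩, ?_, ?_⟩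
        · have h1 : ((n - 1 : ℕ) : ℝ) = n - 1 := by
            rw [Nat.cast_sub hn0]
            simp
          simp only [h1]
          have h2 : (n : ℝ) ≤ j := by exact_mod_cast hjn
          nlinarith
        · have h1 : ((n - 1 : ℕ) : ℝ) = n - 1 := by
            rw [Nat.cast_sub hn0]
            simp
          simp only [h1]
          have := hτ.2
          linarith
    calc ∫⁻ τ in Set.Icc (t - h) (t + h), ENNReal.ofReal (modulus w (cut B P) τ ^ δ)
        ≤ ∫⁻ τ in ⋃ j : Fin n, Set.Icc ((t - h + (2 * (j : ℕ) + 1) * r) - r)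
            ((t - h + (2 * (j : ℕ) + 1) * r) + r), ENNReal.ofReal (modulus w (cut B P) τ ^ δ) :=
          lintegral_mono_set hcov
      _ ≤ ∑' j : Fin n, ∫⁻ τ in Set.Icc ((t - h + (2 * (j : ℕ) + 1) * r) - r)
            ((t - h + (2 * (j : ℕ) + 1) * r) + r), ENNReal.ofReal (modulus w (cut B P) τ ^ δ) :=
          lintegral_iUnion_le _ _
      _ ≤ ∑' _ : Fin n, ENNReal.ofReal (K * r / (1 - |δ| * N) * (Real.exp (2 * c) *
            ‖LFun (cut B P) (edge w t + h)‖ ^ δ)) := by
          refine ENNReal.tsum_le_tsum fun j => ?_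
          refine (hb w N B P hB δ _ r hδ hr le_rfl).trans (ENNReal.ofReal_le_ofReal ?_)
          exact mul_le_mul_of_nonneg_left (hcmp _) (by positivity)
      _ = ENNReal.ofReal (n * (K * r / (1 - |δ| * N) * (Real.exp (2 * c) *
            ‖LFun (cut B P) (edge w t + h)‖ ^ δ))) := by
          rw [tsum_fintype, Finset.sum_const, Finset.card_univ, Fintype.card_fin, nsmul_eq_mul,
            ENNReal.ofReal_mul (by positivity : (0 : ℝ) ≤ n), ENNReal.ofReal_natCast]
      _ ≤ ENNReal.ofReal (K * Real.exp (2 * c) / (1 - |δ| * N) * (2 * h) *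
            ‖LFun (cut B P) (edge w t + h)‖ ^ δ) := by
          refine ENNReal.ofReal_le_ofReal ?_
          have h1 : 0 ≤ K * Real.exp (2 * c) / (1 - |δ| * N) *
            ‖LFun (cut B P) (edge w t + h)‖ ^ δ := by positivity
          calc n * (K * r / (1 - |δ| * N) * (Real.exp (2 * c) *
                ‖LFun (cut B P) (edge w t + h)‖ ^ δ))
              = (n * r) * (K * Real.exp (2 * c) / (1 - |δ| * N) *
                ‖LFun (cut B P) (edge w t + h)‖ ^ δ) := by ring
            _ ≤ (2 * h) * (K * Real.exp (2 * c) / (1 - |δ| * N) *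
                ‖LFun (cut B P) (edge w t + h)‖ ^ δ) := mul_le_mul_of_nonneg_right hnr2 h1
            _ = _ := by ring

section

variable {w : ℤ} {N : ℕ} {B : ℕ → ℂ[X]} {P : ℕ}

/-- From the lower to the Bochner integral. -/
lemma upper_int (hB : PureFrom w N B P) {δ t h M : ℝ} (hh : 0 < h) (hM : 0 ≤ M)
    (hlint : ∫⁻ τ in Set.Icc (t - h) (t + h), ENNReal.ofReal (modulus w (cut B P) τ ^ δ) ≤
      ENNReal.ofReal M) :
    IntervalIntegrable (fun τ => modulus w (cut B P) τ ^ δ) volume (t - h) (t + h) ∧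
      ∫ τ in (t - h)..(t + h), modulus w (cut B P) τ ^ δ ≤ M := by
  have hle : t - h ≤ t + h := by linarith
  have hm := mod_meas w hB δ t h
  have hpos : ∀ᵐ τ ∂(volume.restrict (Set.Icc (t - h) (t + h))),
      0 ≤ modulus w (cut B P) τ ^ δ := by
    refine ae_restrict_of_ae ?_
    filter_upwards [radial_cut hB] with τ hτ
    exact Real.rpow_nonneg hτ.1.le _
  have hint : IntegrableOn (fun τ => modulus w (cut B P) τ ^ δ) (Set.Icc (t - h) (t + h)) := by
    refine ⟨hm.aestronglyMeasurable, ?_⟩
    rw [hasFiniteIntegral_iff_ofReal hpos]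
    exact hlint.trans_lt ENNReal.ofReal_lt_top
  refine ⟨?_, ?_⟩
  · rw [intervalIntegrable_iff_integrableOn_Icc_of_le hle]
    exact hint
  · rw [intervalIntegral.integral_of_le hle, ← integral_Icc_eq_integral_Ioc]
    have h1 := ofReal_integral_eq_lintegral_ofReal hint hpos
    rw [← h1] at hlint
    exact (ENNReal.ofReal_le_ofReal_iff hM).1 hlint

end

/-- **Two-sided bounds, and mean oscillation.** -/
theorem two_sided : ∃ K : ℝ, 0 < K ∧ ∀ (w : ℤ) (N : ℕ) (B : ℕ → ℂ[X]) (P : ℕ),
    PureFrom w N B P → ∀ t h : ℝ, 0 < h →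
    (∀ δ : ℝ, |δ| * N < 1 →
      IntervalIntegrable (fun τ => modulus w (cut B P) τ ^ δ) volume (t - h) (t + h) ∧
      (1 - |δ| * N) / K * ‖LFun (cut B P) (edge w t + h)‖ ^ δ ≤
        1 / (2 * h) * ∫ τ in (t - h)..(t + h), modulus w (cut B P) τ ^ δ ∧
      1 / (2 * h) * ∫ τ in (t - h)..(t + h), modulus w (cut B P) τ ^ δ ≤
        K / (1 - |δ| * N) * ‖LFun (cut B P) (edge w t + h)‖ ^ δ) ∧
    IntervalIntegrable (fun τ => |Real.log (modulus w (cut B P) τ) -
      Real.log ‖LFun (cut B P) (edge w t + h)‖|) volume (t - h) (t + h) ∧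
    1 / (2 * h) * ∫ τ in (t - h)..(t + h), |Real.log (modulus w (cut B P) τ) -
      Real.log ‖LFun (cut B P) (edge w t + h)‖| ≤ K * N := by
  obtain ⟨K, hK, hw⟩ := weights
  refine ⟨8 * K, by positivity, ?_⟩
  intro w N B P hB t h hh
  have hle : t - h ≤ t + h := by linarith
  set X := ‖LFun (cut B P) (edge w t + h)‖ with hX
  have hX0 : 0 < X := norm_pos_iff.2 (log_cut hB t hh).2
  have hup : ∀ δ : ℝ, |δ| * N < 1 →
      IntervalIntegrable (fun τ => modulus w (cut B P) τ ^ δ) volume (t - h) (t + h) ∧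
      ∫ τ in (t - h)..(t + h), modulus w (cut B P) τ ^ δ ≤
        K / (1 - |δ| * N) * (2 * h) * X ^ δ := by
    intro δ hδ
    have hδ' : 0 < 1 - |δ| * N := by linarith
    exact upper_int hB hh (by positivity) (hw w N B P hB δ t h hδ hh)
  have hae := radial_cut hB
  refine ⟨?_, ?_⟩
  · intro δ hδ
    have hδ' : 0 < 1 - |δ| * N := by linarith
    obtain ⟨h1, h2⟩ := hup δ hδ
    obtain ⟨h3, h4⟩ := hup (-δ) (by rwa [abs_neg])
    rw [abs_neg] at h4
    refine ⟨h1, ?_, ?_⟩
    · set A := ∫ τ in (t - h)..(t + h), modulus w (cut B P) τ ^ δ with hA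
      set A' := ∫ τ in (t - h)..(t + h), modulus w (cut B P) τ ^ (-δ) with hA'
      set M := K / (1 - |δ| * N) with hM
      have hM0 : 0 < M := by positivity
      have hXd : 0 < X ^ δ := Real.rpow_pos_of_pos hX0 _
      set c := M / X ^ δ with hc
      have hc0 : 0 < c := by positivity
      have h5 : ∫ _ in (t - h)..(t + h), (2 : ℝ) ≤ c * A + c⁻¹ * A' := by
        rw [hA, hA', ← intervalIntegral.integral_const_mul, ← intervalIntegral.integral_const_mul,
          ← intervalIntegral.integral_add (h1.const_mul c) (h3.const_mul c⁻¹)]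
        refine intervalIntegral.integral_mono_ae hle intervalIntegrable_const
          ((h1.const_mul c).add (h3.const_mul c⁻¹)) ?_
        filter_upwards [hae] with τ hτ
        have h6 : 0 < modulus w (cut B P) τ ^ δ := Real.rpow_pos_of_pos hτ.1 _
        rw [Real.rpow_neg hτ.1.le]
        set y := modulus w (cut B P) τ ^ δ
        have h7 : c⁻¹ * y⁻¹ = (c * y)⁻¹ := by rw [mul_inv]
        rw [h7]
        have h8 : 0 < c * y := by positivity
        have h9 : (c * y) * (c * y)⁻¹ = 1 := mul_inv_cancel₀ h8.ne'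
        have h10 : 0 < (c * y)⁻¹ := by positivity
        nlinarith [sq_nonneg (c * y - 1)]
      rw [intervalIntegral.integral_const, smul_eq_mul] at h5
      have h6 : c⁻¹ * A' ≤ 2 * h := by
        rw [Real.rpow_neg hX0.le] at h4
        calc c⁻¹ * A' ≤ c⁻¹ * (M * (2 * h) * (X ^ δ)⁻¹) := by gcongr
          _ = 2 * h := by
              rw [hc]
              field_simp
      have h7 : 2 * h ≤ c * A := by linarith
      have h8 : (1 - |δ| * N) / (8 * K) * X ^ δ ≤ M⁻¹ * X ^ δ := by
        refine mul_le_mul_of_nonneg_right ?_ hXd.le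
        rw [hM, inv_div]
        exact div_le_div_of_nonneg_left hδ'.le hK (by linarith)
      refine h8.trans ?_
      rw [hc] at h7
      have h9 : M⁻¹ * X ^ δ = 1 / (2 * h) * ((M⁻¹ * X ^ δ) * (2 * h)) := by field_simp
      rw [h9]
      refine mul_le_mul_of_nonneg_left ?_ (by positivity)
      calc M⁻¹ * X ^ δ * (2 * h) ≤ M⁻¹ * X ^ δ * (M / X ^ δ * A) :=
            mul_le_mul_of_nonneg_left h7 (by positivity)
        _ = A := by field_simp
    · have hXd : 0 < X ^ δ := Real.rpow_pos_of_pos hX0 _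
      calc 1 / (2 * h) * ∫ τ in (t - h)..(t + h), modulus w (cut B P) τ ^ δ
          ≤ 1 / (2 * h) * (K / (1 - |δ| * N) * (2 * h) * X ^ δ) :=
            mul_le_mul_of_nonneg_left h2 (by positivity)
        _ = K / (1 - |δ| * N) * X ^ δ := by field_simp
        _ ≤ 8 * K / (1 - |δ| * N) * X ^ δ := by
            refine mul_le_mul_of_nonneg_right ?_ hXd.le
            exact div_le_div_of_nonneg_right (by linarith) hδ'.le
  · have hN0 : (0 : ℝ) ≤ N := Nat.cast_nonneg N
    have hml : AEStronglyMeasurable (fun τ => |Real.log (modulus w (cut B P) τ) - Real.log X|)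
        (volume.restrict (Set.Icc (t - h) (t + h))) := by
      have h1 := mod_meas w hB 1 t h
      simp only [Real.rpow_one] at h1
      have h2 := ((Real.measurable_log.comp_aemeasurable h1).sub_const (Real.log X))
      exact (h2.abs).aestronglyMeasurable
    have hpt : ∀ δ : ℝ, 0 < δ → ∀ᵐ τ : ℝ, |Real.log (modulus w (cut B P) τ) - Real.log X| ≤
        1 / δ * ((X ^ δ)⁻¹ * modulus w (cut B P) τ ^ δ +
          X ^ δ * modulus w (cut B P) τ ^ (-δ)) := by
      intro δ hδ
      filter_upwards [hae] with τ hτ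
      have e1 : (X ^ δ)⁻¹ * modulus w (cut B P) τ ^ δ =
          Real.exp (δ * (Real.log (modulus w (cut B P) τ) - Real.log X)) := by
        rw [Real.rpow_def_of_pos hX0, Real.rpow_def_of_pos hτ.1, ← Real.exp_neg, ← Real.exp_add]
        congr 1
        ring
      have e2 : X ^ δ * modulus w (cut B P) τ ^ (-δ) =
          Real.exp (-(δ * (Real.log (modulus w (cut B P) τ) - Real.log X))) := by
        rw [Real.rpow_def_of_pos hX0, Real.rpow_def_of_pos hτ.1, ← Real.exp_add]
        congr 1
        ring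
      rw [e1, e2]
      set x := Real.log (modulus w (cut B P) τ) - Real.log X
      have h1 := Real.add_one_le_exp (δ * x)
      have h2 := Real.add_one_le_exp (-(δ * x))
      have h3 := Real.exp_pos (δ * x)
      have h4 := Real.exp_pos (-(δ * x))
      rw [one_div, ← div_eq_inv_mul, le_div_iff₀ hδ]
      have h5 : |x| * δ = |δ * x| := by
        rw [abs_mul, abs_of_pos hδ]
        ring
      rw [h5]
      exact abs_le.2 ⟨by linarith, by linarith⟩
    have hmain : ∀ δ : ℝ, 0 < δ → δ * N < 1 →
        IntervalIntegrable (fun τ => |Real.log (modulus w (cut B P) τ) - Real.log X|) volume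
          (t - h) (t + h) ∧
        1 / (2 * h) * ∫ τ in (t - h)..(t + h), |Real.log (modulus w (cut B P) τ) - Real.log X| ≤
          2 * K / (δ * (1 - δ * N)) := by
      intro δ hδ hδN
      have hab : |δ| = δ := abs_of_pos hδ
      have hδ' : 0 < 1 - δ * N := by linarith
      have hXd : 0 < X ^ δ := Real.rpow_pos_of_pos hX0 _
      obtain ⟨h1, h2⟩ := hup δ (by rwa [hab])
      obtain ⟨h3, h4⟩ := hup (-δ) (by rwa [abs_neg, hab])
      rw [abs_neg, hab, Real.rpow_neg hX0.le] at h4
      rw [hab] at h2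
      have h5 := ((h1.const_mul (X ^ δ)⁻¹).add (h3.const_mul (X ^ δ))).const_mul (1 / δ)
      have h6 : IntervalIntegrable (fun τ => |Real.log (modulus w (cut B P) τ) - Real.log X|)
          volume (t - h) (t + h) := by
        rw [intervalIntegrable_iff_integrableOn_Icc_of_le hle] at h5 ⊢
        refine Integrable.mono' h5 hml ?_
        refine ae_restrict_of_ae ?_
        filter_upwards [hpt δ hδ] with τ hτ
        rw [Real.norm_eq_abs, abs_abs]
        exact hτ
      refine ⟨h6, ?_⟩
      have h7 : ∫ τ in (t - h)..(t + h), |Real.log (modulus w (cut B P) τ) - Real.log X| ≤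
          1 / δ * (K / (1 - δ * N) * (2 * h) + K / (1 - δ * N) * (2 * h)) := by
        calc ∫ τ in (t - h)..(t + h), |Real.log (modulus w (cut B P) τ) - Real.log X|
            ≤ ∫ τ in (t - h)..(t + h), 1 / δ * ((X ^ δ)⁻¹ * modulus w (cut B P) τ ^ δ +
              X ^ δ * modulus w (cut B P) τ ^ (-δ)) :=
              intervalIntegral.integral_mono_ae hle h6 h5 (hpt δ hδ)
          _ = 1 / δ * ((X ^ δ)⁻¹ * (∫ τ in (t - h)..(t + h), modulus w (cut B P) τ ^ δ) +
              X ^ δ * ∫ τ in (t - h)..(t + h), modulus w (cut B P) τ ^ (-δ)) := by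
              rw [intervalIntegral.integral_const_mul,
                intervalIntegral.integral_add (h1.const_mul _) (h3.const_mul _),
                intervalIntegral.integral_const_mul, intervalIntegral.integral_const_mul]
          _ ≤ 1 / δ * ((X ^ δ)⁻¹ * (K / (1 - δ * N) * (2 * h) * X ^ δ) +
              X ^ δ * (K / (1 - δ * N) * (2 * h) * (X ^ δ)⁻¹)) := by gcongr
          _ = _ := by
              field_simp
      calc 1 / (2 * h) * ∫ τ in (t - h)..(t + h), |Real.log (modulus w (cut B P) τ) - Real.log X|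
          ≤ 1 / (2 * h) * (1 / δ * (K / (1 - δ * N) * (2 * h) + K / (1 - δ * N) * (2 * h))) :=
            mul_le_mul_of_nonneg_left h7 (by positivity)
        _ = 2 * K / (δ * (1 - δ * N)) := by
            field_simp
            ring
    have hδη : ∀ η : ℝ, 0 < η → 0 < 1 / (2 * (N : ℝ) + η) ∧ 1 / (2 * (N : ℝ) + η) * N < 1 := by
      intro η hη
      have h1 : 0 < 2 * (N : ℝ) + η := by positivity
      refine ⟨by positivity, ?_⟩
      rw [one_div, inv_mul_lt_iff₀ h1]
      linarith
    refine ⟨(hmain _ (hδη 1 one_pos).1 (hδη 1 one_pos).2).1, ?_⟩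
    refine le_of_forall_pos_le_add fun η hη => ?_
    set η' := η / (4 * K) with hη'
    have hη'0 : 0 < η' := by positivity
    obtain ⟨h1, h2⟩ := hδη η' hη'0
    refine (hmain _ h1 h2).2.trans ?_
    have h3 : 0 < 2 * (N : ℝ) + η' := by positivity
    have h4 : (1 / 2 : ℝ) ≤ 1 - 1 / (2 * (N : ℝ) + η') * N := by
      have : 1 / (2 * (N : ℝ) + η') * N ≤ 1 / 2 := by
        rw [one_div, inv_mul_le_iff₀ h3]
        linarith
      linarith
    calc 2 * K / (1 / (2 * (N : ℝ) + η') * (1 - 1 / (2 * (N : ℝ) + η') * N))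
        ≤ 2 * K / (1 / (2 * (N : ℝ) + η') * (1 / 2)) := by
          refine div_le_div_of_nonneg_left (by positivity) (by positivity) ?_
          exact mul_le_mul_of_nonneg_left h4 h1.le
      _ = 4 * K * (2 * N + η') := by
          field_simp
          ring
      _ = 8 * K * N + η := by
          rw [hη']
          field_simp
          ring

end Pool.Agent.R385.MW
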