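import Pool.Agent.R385.MW.Int

/-!
# The inequality on the edge
-/

set_option autoImplicit false

namespace Pool.Agent.R385.MW

open MeasureTheory Finset intervalIntegral Filter Topology Pool.Agent.R385.MC Pool.Agent.R385.DT
  Pool.Agent.W350.Edge Polynomial

section

variable {w : ℤ} {N : ℕ} {B : ℕ → ℂ[X]} {P : ℕ}

lemma radial_cut (hB : PureFrom w N B P) : ∀ᵐ τ : ℝ, 0 < modulus w (cut B P) τ ∧
    Tendsto (fun ε : ℝ => ‖LFun (cut B P) (edge w τ + ε)‖) (𝓝[>] 0)
      (𝓝 (modulus w (cut B P) τ)) := by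
  filter_upwards [(mot_dec (cut_good hB) (cut_ne hB)).radial,
    modulus_lim (cut_good hB) (cut_ne hB)] with τ h1 h2
  refine ⟨h2.1, ?_⟩
  have h3 : ContinuousAt (AC w N B P) (τ : ℂ) := (AC_an (by simp)).continuousAt
  refine (h1 h3).congr fun ε => ?_
  have h4 : eg w (τ - Complex.I * ε) = edge w τ + ε := by
    rw [edge_eg]
    unfold eg
    linear_combination (-(ε : ℂ)) * Complex.I_mul_I
  simp only [h4]

lemma mod_meas (w : ℤ) (hB : PureFrom w N B P) (δ : ℝ) (t h : ℝ) :
    AEMeasurable (fun τ => modulus w (cut B P) τ ^ δ) (volume.restrict (Set.Icc (t - h) (t + h))) := by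
  have h1 : AEMeasurable (fun τ => modulus w (cut B P) τ) := by
    refine aemeasurable_of_tendsto_metrizable_ae (ι := ℕ) atTop
      (f := fun n : ℕ => fun τ : ℝ => ‖LFun (cut B P) (edge w τ + ((1 / ((n : ℝ) + 1) : ℝ) : ℂ))‖)
      (fun n => (L_cont hB (by positivity)).norm.aemeasurable) ?_
    filter_upwards [radial_cut hB] with τ hτ
    refine hτ.2.comp ?_
    refine tendsto_nhdsWithin_iff.2 ⟨tendsto_one_div_add_atTop_nhds_zero_nat, ?_⟩
    exact Eventually.of_forall fun n => by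
      show (0 : ℝ) < 1 / ((n : ℝ) + 1)
      positivity
  exact (h1.pow_const δ).restrict

/-- **The inequality on the edge, for short intervals.** -/
theorem bdry : ∃ K r : ℝ, 0 < K ∧ 0 < r ∧ ∀ (w : ℤ) (N : ℕ) (B : ℕ → ℂ[X]) (P : ℕ),
    PureFrom w N B P → ∀ δ t h : ℝ, |δ| * N < 1 → 0 < h → h ≤ r →
    ∫⁻ τ in Set.Icc (t - h) (t + h), ENNReal.ofReal (modulus w (cut B P) τ ^ δ) ≤
      ENNReal.ofReal (K * h / (1 - |δ| * N) * ‖LFun (cut B P) (edge w t + h)‖ ^ δ) := by
  obtain ⟨K, r, hK, hr, hint⟩ := interior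
  refine ⟨K, r, hK, hr, ?_⟩
  intro w N B P hB δ t h hδ hh hhr
  set e : ℕ → ℝ := fun n => h / ((n : ℝ) + 1) with he
  have he0 : ∀ n, 0 < e n := fun n => by simp only [he]; positivity
  have heh : ∀ n, e n ≤ h := fun n => by
    simp only [he]
    refine div_le_self hh.le ?_
    have : (0 : ℝ) ≤ n := Nat.cast_nonneg n
    linarith
  have hlim : Tendsto e atTop (𝓝[>] 0) := by
    refine tendsto_nhdsWithin_iff.2 ⟨?_, Eventually.of_forall he0⟩
    have h1 := (tendsto_one_div_add_atTop_nhds_zero_nat (𝕜 := ℝ)).const_mul h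
    rw [mul_zero] at h1
    refine h1.congr fun n => ?_
    simp only [he]
    ring
  set f : ℕ → ℝ → ENNReal := fun n τ =>
    ENNReal.ofReal (‖LFun (cut B P) (edge w τ + ((e n : ℝ) : ℂ))‖ ^ δ) with hf
  have hL : ∀ (τ ε : ℝ), 0 < ε → 0 < ‖LFun (cut B P) (edge w τ + ε)‖ :=
    fun τ ε hε => norm_pos_iff.2 (log_cut hB τ hε).2
  have hcont : ∀ n, Continuous fun τ : ℝ => ‖LFun (cut B P) (edge w τ + ((e n : ℝ) : ℂ))‖ ^ δ :=
    fun n => (L_cont hB (he0 n)).norm.rpow_const fun τ => Or.inl (hL τ _ (he0 n)).ne'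
  have hfm : ∀ n, Measurable (f n) := fun n => (hcont n).measurable.ennreal_ofReal
  have h1 : ∀ᵐ τ ∂(volume.restrict (Set.Icc (t - h) (t + h))),
      ENNReal.ofReal (modulus w (cut B P) τ ^ δ) = liminf (fun n => f n τ) atTop := by
    refine ae_restrict_of_ae ?_
    filter_upwards [radial_cut hB] with τ hτ
    have h2 : Tendsto (fun n => f n τ) atTop (𝓝 (ENNReal.ofReal (modulus w (cut B P) τ ^ δ))) := by
      refine (ENNReal.continuous_ofReal.tendsto _).comp ?_
      exact (hτ.2.comp hlim).rpow_const (Or.inl hτ.1.ne')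
    exact h2.liminf_eq.symm
  rw [lintegral_congr_ae h1]
  refine (lintegral_liminf_le hfm).trans ?_
  have h3 : ∀ n, ∫⁻ τ in Set.Icc (t - h) (t + h), f n τ ≤
      ENNReal.ofReal (K * h / (1 - |δ| * N) * ‖LFun (cut B P) (edge w t + h)‖ ^ δ) := by
    intro n
    have h4 := hint w N B P hB δ t (e n) h hδ (he0 n) (heh n) hhr
    simp only [hf]
    rw [← ofReal_integral_eq_lintegral_ofReal]
    · refine ENNReal.ofReal_le_ofReal ?_
      rw [integral_Icc_eq_integral_Ioc, ← intervalIntegral.integral_of_le (by linarith)]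
      refine le_trans (le_of_eq ?_) h4
      have h5 := intervalIntegral.integral_comp_add_left (a := -h) (b := h)
        (fun τ : ℝ => ‖LFun (cut B P) (edge w τ + ((e n : ℝ) : ℂ))‖ ^ δ) t
      rw [h5]
      congr 1
    · exact ((hcont n).continuousOn).integrableOn_Icc
    · exact ae_of_all _ fun τ => (Real.rpow_nonneg (norm_nonneg _) _)
  exact (liminf_le_liminf (Eventually.of_forall h3)).trans_eq (liminf_const _)

/-- The trivial bound. -/
lemma triv_bound {h₀ : ℝ} (hh₀ : 0 < h₀) : ∃ c : ℝ, 0 ≤ c ∧ ∀ (w : ℤ) (N : ℕ) (B : ℕ → ℂ[X]) (P : ℕ),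
    PureFrom w N B P → ∀ τ ε : ℝ, h₀ ≤ ε →
      |Real.log ‖LFun (cut B P) (edge w τ + ε)‖| ≤ c * N := by
  have hC2 := C2_nonneg
  set g : ℕ → ℝ := fun n => ‖if n.Prime then (1 : ℂ) / n *
      Complex.exp (-(h₀ + (0 : ℝ) * Complex.I) * Real.log n) else 0‖ with hg
  have hgs : Summable g := (gsum_summable (a := fun _ => 1) (D := 1) (fun _ => by simp) hh₀ 0).norm
  refine ⟨C2 + ∑' n, g n, ?_, ?_⟩
  · have : 0 ≤ ∑' n, g n := tsum_nonneg fun n => norm_nonneg _
    positivity
  intro w N B P hB τ ε hε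
  have hε0 : 0 < ε := hh₀.trans_le hε
  rw [(log_cut hB τ hε0).1]
  refine (abs_add_le _ _).trans ?_
  rw [add_mul]
  refine add_le_add ?_ ?_
  · exact AC_bound (by simpa using hε0.le)
  · refine (Complex.abs_re_le_norm _).trans ?_
    unfold GA
    rw [gg_eq_ite]
    refine tsum_of_norm_bounded (hgs.hasSum.mul_right (N : ℝ)) fun n => ?_
    simp only [hg]
    split_ifs with hp
    · have hL : 0 ≤ Real.log n := Real.log_natCast_nonneg n
      rw [norm_mul, norm_mul, norm_div, norm_div, Complex.norm_natCast, norm_one,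
        Complex.norm_exp, Complex.norm_exp]
      have e1 : ∀ ε τ : ℝ, (-((ε : ℂ) + (τ : ℂ) * Complex.I) * ((Real.log n : ℝ) : ℂ)).re =
          -ε * Real.log n := by
        intro ε τ
        generalize Real.log n = y
        simp
      rw [e1, e1]
      have h1 : Real.exp (-ε * Real.log n) ≤ Real.exp (-h₀ * Real.log n) := by
        refine Real.exp_le_exp.2 ?_
        nlinarith
      have h2 := aC_norm (w := w) (N := N) (B := B) (P := P) n
      calc ‖aC w N B P n‖ / n * Real.exp (-ε * Real.log n)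
          ≤ N / n * Real.exp (-h₀ * Real.log n) := by gcongr
        _ = _ := by ring
    · simp

end

end Pool.Agent.R385.MW
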