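import Pool.Agent.R385.MW.Maj

/-!
# The majorant principle for exponentials
-/

set_option autoImplicit false

namespace Pool.Agent.R385.MW

open MeasureTheory Finset intervalIntegral Filter Topology

lemma IsMaj.bound {F G : ℝ → ℂ} (h : IsMaj F G) : ∃ M : ℝ, ∀ u, ‖F u‖ ≤ M ∧ ‖G u‖ ≤ M := by
  obtain ⟨ι, _, c, d, l, h1, h2, h3⟩ := h
  refine ⟨∑ i, d i, fun u => ⟨?_, ?_⟩⟩
  · rw [h2]
    refine norm_sum_le_of_le _ fun i _ => ?_
    rw [norm_mul, norm_ex, mul_one]
    exact h1 i
  · rw [h3]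
    refine norm_sum_le_of_le _ fun i _ => ?_
    rw [norm_mul, norm_ex, mul_one, Complex.norm_real,
      Real.norm_of_nonneg ((norm_nonneg _).trans (h1 i))]

/-- The approximation of the exponential. -/
lemma pow_bound {z : ℂ} {M : ℝ} (hz : ‖z‖ ≤ M) (n : ℕ) : ‖1 + ((1 / (n : ℝ) : ℝ) : ℂ) * z‖ ^ n ≤
    Real.exp M := by
  rcases Nat.eq_zero_or_pos n with h | h
  · rw [h, pow_zero]
    exact Real.one_le_exp ((norm_nonneg z).trans hz)
  · have hn : (0 : ℝ) < n := by exact_mod_cast h
    have h1 : ‖1 + ((1 / (n : ℝ) : ℝ) : ℂ) * z‖ ≤ Real.exp (M / n) := by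
      calc ‖1 + ((1 / (n : ℝ) : ℝ) : ℂ) * z‖ ≤ 1 + ‖z‖ / n := by
            refine (norm_add_le _ _).trans ?_
            rw [norm_one, norm_mul, Complex.norm_real, Real.norm_of_nonneg (by positivity)]
            exact le_of_eq (by ring)
        _ ≤ M / n + 1 := by
            rw [add_comm]
            gcongr
        _ ≤ Real.exp (M / n) := Real.add_one_le_exp _
    calc ‖1 + ((1 / (n : ℝ) : ℝ) : ℂ) * z‖ ^ n ≤ Real.exp (M / n) ^ n :=
          pow_le_pow_left₀ (norm_nonneg _) h1 n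
      _ = Real.exp M := by
          rw [← Real.exp_nat_mul]
          congr 1
          field_simp

lemma pow_tend (z : ℂ) :
    Tendsto (fun n : ℕ => (1 + ((1 / (n : ℝ) : ℝ) : ℂ) * z) ^ n) atTop (𝓝 (Complex.exp z)) := by
  refine (Complex.tendsto_one_add_div_pow_exp z).congr fun n => ?_
  congr 2
  push_cast
  ring

/-- The majorant principle for exponentials. -/
theorem IsMaj.exp_le {F G : ℝ → ℂ} (h : IsMaj F G) {T : ℝ} (hT : 0 < T) (t : ℝ) :
    ∫ u in (-T)..T, ‖Complex.exp (F (t + u))‖ ^ 2 ≤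
      2 * ∫ u in (-(2 * T))..(2 * T), ‖Complex.exp (G u)‖ ^ 2 := by
  obtain ⟨M, hM⟩ := h.bound
  obtain ⟨hFc, hGc⟩ := h.cont
  have hlim : ∀ (H : ℝ → ℂ), Continuous H → (∀ u, ‖H u‖ ≤ M) → ∀ a b : ℝ,
      Tendsto (fun n : ℕ => ∫ u in a..b, ‖(1 + ((1 / (n : ℝ) : ℝ) : ℂ) * H u) ^ n‖ ^ 2) atTop
        (𝓝 (∫ u in a..b, ‖Complex.exp (H u)‖ ^ 2)) := by
    intro H hH hHM a b
    refine intervalIntegral.tendsto_integral_filter_of_dominated_convergence
      (fun _ => Real.exp M ^ 2) (Eventually.of_forall fun n => ?_)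
      (Eventually.of_forall fun n => Eventually.of_forall fun u _ => ?_)
      (_root_.intervalIntegrable_const) (Eventually.of_forall fun u _ => ?_)
    · refine Continuous.aestronglyMeasurable ?_
      fun_prop
    · rw [Real.norm_of_nonneg (by positivity), norm_pow]
      exact pow_le_pow_left₀ (by positivity) (pow_bound (hHM u) n) 2
    · exact ((pow_tend (H u)).norm).pow 2
  have h1 := hlim (fun u => F (t + u)) (by fun_prop) (fun u => (hM _).1) (-T) T
  have h2 := (hlim G hGc (fun u => (hM u).2) (-(2 * T)) (2 * T)).const_mul 2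
  refine le_of_tendsto_of_tendsto' h1 h2 fun n => ?_
  have h3 := ((IsMaj.one.add (h.smul (by positivity : (0 : ℝ) ≤ 1 / (n : ℝ)))).pow n).le hT t
  exact h3

/-- Sums over the integers with weights. -/
noncomputable def SS (W : ℕ → ℝ) (a : ℕ → ℂ) (u : ℝ) : ℂ :=
  ∑' n : ℕ, (W n : ℂ) * (a n * ex (-Real.log n) u)

/-- **The majorant principle for exponentials of infinite sums.** -/
theorem exp_maj {W : ℕ → ℝ} (hW : ∀ n, 0 ≤ W n) (hWs : Summable W) {a : ℕ → ℂ} {D : ℝ}
    (ha : ∀ n, ‖a n‖ ≤ D) {α : ℝ} {T : ℝ} (hT : 0 < T) (t : ℝ) :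
    ∫ u in (-T)..T, Real.exp (2 * (α * (SS W a (t + u)).re)) ≤
      2 * ∫ u in (-(2 * T))..(2 * T), Real.exp (2 * (|α| * D * (SS W (fun _ => 1) u).re)) := by
  have hD : 0 ≤ D := (norm_nonneg _).trans (ha 0)
  have hsum : ∀ (b : ℕ → ℂ) (E : ℝ), (∀ n, ‖b n‖ ≤ E) → ∀ u : ℝ,
      Summable fun n : ℕ => (W n : ℂ) * (b n * ex (-Real.log n) u) := by
    intro b E hb u
    refine Summable.of_norm_bounded (hWs.mul_right E) fun n => ?_
    rw [norm_mul, norm_mul, norm_ex, mul_one, Complex.norm_real, Real.norm_of_nonneg (hW n)]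
    exact mul_le_mul_of_nonneg_left (hb n) (hW n)
  set A := ∑' n, W n with hA
  have hbd : ∀ (b : ℕ → ℂ) (E : ℝ), (∀ n, ‖b n‖ ≤ E) → ∀ (X : ℕ) (u : ℝ),
      ‖∑ n ∈ range X, (W n : ℂ) * (b n * ex (-Real.log n) u)‖ ≤ A * E := by
    intro b E hb X u
    have hE : 0 ≤ E := (norm_nonneg _).trans (hb 0)
    calc ‖∑ n ∈ range X, (W n : ℂ) * (b n * ex (-Real.log n) u)‖ ≤ ∑ n ∈ range X, W n * E := by
          refine norm_sum_le_of_le _ fun n _ => ?_
          rw [norm_mul, norm_mul, norm_ex, mul_one, Complex.norm_real,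
            Real.norm_of_nonneg (hW n)]
          exact mul_le_mul_of_nonneg_left (hb n) (hW n)
      _ = (∑ n ∈ range X, W n) * E := by rw [sum_mul]
      _ ≤ A * E := mul_le_mul_of_nonneg_right (hWs.sum_le_tsum _ fun n _ => hW n) hE
  have hlim : ∀ (b : ℕ → ℂ) (E β : ℝ), (∀ n, ‖b n‖ ≤ E) → ∀ s x y : ℝ,
      Tendsto (fun X : ℕ => ∫ u in x..y, ‖Complex.exp ((β : ℂ) *
        ∑ n ∈ range X, (W n : ℂ) * (b n * ex (-Real.log n) (s + u)))‖ ^ 2) atTop
        (𝓝 (∫ u in x..y, Real.exp (2 * (β * (SS W b (s + u)).re)))) := by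
    intro b E β hb s x y
    refine intervalIntegral.tendsto_integral_filter_of_dominated_convergence
      (fun _ => Real.exp (|β| * (A * E)) ^ 2) (Eventually.of_forall fun n => ?_)
      (Eventually.of_forall fun n => Eventually.of_forall fun u _ => ?_)
      (_root_.intervalIntegrable_const) (Eventually.of_forall fun u _ => ?_)
    · refine Continuous.aestronglyMeasurable ?_
      have h0 : ∀ l : ℝ, Continuous fun u : ℝ => ex l (s + u) :=
        fun l => (ex_cont l).comp (continuous_const.add continuous_id)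
      have h1 : Continuous fun u : ℝ => ∑ n ∈ range n, (W n : ℂ) *
          (b n * ex (-Real.log n) (s + u)) :=
        continuous_finsetSum _ fun i _ => continuous_const.mul (continuous_const.mul (h0 _))
      fun_prop
    · rw [Real.norm_of_nonneg (by positivity), Complex.norm_exp]
      refine pow_le_pow_left₀ (Real.exp_pos _).le (Real.exp_le_exp.2 ?_) 2
      refine (Complex.re_le_norm _).trans ?_
      rw [norm_mul, Complex.norm_real, Real.norm_eq_abs]
      exact mul_le_mul_of_nonneg_left (hbd b E hb n _) (abs_nonneg _)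
    · have h1 : Real.exp (2 * (β * (SS W b (s + u)).re)) =
          ‖Complex.exp ((β : ℂ) * SS W b (s + u))‖ ^ 2 := by
        rw [Complex.norm_exp, Complex.re_ofReal_mul, two_mul, Real.exp_add, sq]
      rw [h1]
      have h2 := (hsum b E hb (s + u)).hasSum.tendsto_sum_nat
      exact (((Complex.continuous_exp.tendsto _).comp (h2.const_mul (β : ℂ))).norm).pow 2
  have h1 := hlim a D α ha t (-T) T
  have h2 := (hlim (fun _ => 1) 1 (|α| * D) (fun _ => by simp) 0 (-(2 * T)) (2 * T)).const_mul 2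
  simp only [zero_add] at h2
  refine le_of_tendsto_of_tendsto' h1 h2 fun X => ?_
  have hmaj : IsMaj (fun u => (α : ℂ) * ∑ n ∈ range X, (W n : ℂ) * (a n * ex (-Real.log n) u))
      (fun u => ((|α| * D : ℝ) : ℂ) * ∑ n ∈ range X, (W n : ℂ) * ((fun _ => 1 : ℕ → ℂ) n * ex (-Real.log n) u)) := by
    refine ⟨Fin X, inferInstance, fun i => α * (W i * a i), fun i => |α| * D * W i,
      fun i => -Real.log (i : ℕ), fun i => ?_, fun u => ?_, fun u => ?_⟩
    · rw [norm_mul, norm_mul, Complex.norm_real, Complex.norm_real, Real.norm_eq_abs,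
        Real.norm_of_nonneg (hW i)]
      calc |α| * (W i * ‖a i‖) ≤ |α| * (W i * D) := by
            have := ha i
            have := hW i
            gcongr
        _ = |α| * D * W i := by ring
    · dsimp only
      rw [mul_sum, Finset.sum_range]
      refine sum_congr rfl fun i _ => ?_
      ring
    · dsimp only
      rw [mul_sum, Finset.sum_range]
      refine sum_congr rfl fun i _ => ?_
      push_cast
      ring
  exact hmaj.exp_le hT t

end Pool.Agent.R385.MW
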