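import Pool.Agent.R385.MW.Zet
import Pool.Agent.R385.MC.Main

/-!
# The inequality inside the half-plane
-/

set_option autoImplicit false

namespace Pool.Agent.R385.MW

open MeasureTheory Finset intervalIntegral Filter Topology Pool.Agent.R385.MC Pool.Agent.R385.DT
  Pool.Agent.W350.Edge Polynomial

/-- The prime sum. -/
noncomputable def GA (a : ℕ → ℂ) (τ ε : ℝ) : ℂ := gg a (τ - Complex.I * ε)

lemma GA_sub {a : ℕ → ℂ} {D : ℝ} (ha : ∀ n, ‖a n‖ ≤ D) (τ : ℝ) {ε h : ℝ} (hε : 0 < ε)
    (hεh : ε ≤ h) : GA a τ ε - GA a τ h = SS (WW ε h) a τ := by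
  unfold GA
  rw [gg_eq_ite, gg_eq_ite,
    ← (gsum_summable ha hε τ).tsum_sub (gsum_summable ha (hε.trans_le hεh) τ)]
  unfold SS
  refine tsum_congr fun n => ?_
  unfold WW
  split_ifs with hp
  · have e1 : ∀ ε : ℝ, Complex.exp (-(ε + τ * Complex.I) * Real.log n) =
        ((Real.exp (-ε * Real.log n) : ℝ) : ℂ) * ex (-Real.log n) τ := by
      intro ε
      unfold ex
      rw [Complex.ofReal_exp, ← Complex.exp_add]
      congr 1
      push_cast
      ring
    rw [e1, e1]
    push_cast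
    ring
  · simp

lemma ex_sub_le (l u v : ℝ) : ‖ex l u - ex l v‖ ≤ |l| * |u - v| := by
  have h1 : ex l u - ex l v = ex l v * (ex l (u - v) - 1) := by
    have : ex l u = ex l v * ex l (u - v) := by
      rw [← ex_shift]
      congr 1
      ring
    rw [this]
    ring
  rw [h1, norm_mul, norm_ex, one_mul]
  unfold ex
  have h2 := Real.norm_exp_I_mul_ofReal_sub_one_le (x := l * (u - v))
  rw [mul_comm Complex.I] at h2
  refine h2.trans ?_
  rw [Real.norm_eq_abs, abs_mul]

lemma xexp_le {x : ℝ} (hx : 0 ≤ x) : x * Real.exp (-x) ≤ 2 * (Real.exp (-(x / 2)) - Real.exp (-x)) := by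
  have h1 := Real.add_one_le_exp (x / 2)
  have h2 : Real.exp (-(x / 2)) = Real.exp (-x) * Real.exp (x / 2) := by
    rw [← Real.exp_add]
    congr 1
    ring
  have h3 := Real.exp_pos (-x)
  rw [h2]
  nlinarith

/-- The horizontal variation. -/
lemma GA_hor : ∃ r : ℝ, 0 < r ∧ ∀ (a : ℕ → ℂ) (D : ℝ), (∀ n, ‖a n‖ ≤ D) → ∀ τ t h : ℝ, 0 < h →
    h ≤ r → |τ - t| ≤ h → ‖GA a τ h - GA a t h‖ ≤ 4 * D := by
  obtain ⟨r, hr, hmass⟩ := mass one_pos
  refine ⟨r, hr, ?_⟩
  intro a D ha τ t h hh hhr hτ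
  have hD : 0 ≤ D := (norm_nonneg _).trans (ha 0)
  unfold GA
  rw [gg_eq_ite, gg_eq_ite, ← (gsum_summable ha hh τ).tsum_sub (gsum_summable ha hh t)]
  have hW := WW_summable (by positivity : 0 < h / 2) (by linarith : h / 2 ≤ h)
  have hb : ∀ n : ℕ, ‖(if n.Prime then a n / n * Complex.exp (-(h + τ * Complex.I) * Real.log n)
      else 0) - (if n.Prime then a n / n * Complex.exp (-(h + t * Complex.I) * Real.log n)
      else 0)‖ ≤ WW (h / 2) h n * (2 * D) := by
    intro n
    unfold WW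
    split_ifs with hp
    · have hn0 : (0 : ℝ) < n := by exact_mod_cast hp.pos
      have hL : 0 ≤ Real.log n := Real.log_natCast_nonneg n
      have e1 : ∀ τ : ℝ, Complex.exp (-(h + τ * Complex.I) * Real.log n) =
          ((Real.exp (-h * Real.log n) : ℝ) : ℂ) * ex (-Real.log n) τ := by
        intro τ
        unfold ex
        rw [Complex.ofReal_exp, ← Complex.exp_add]
        congr 1
        push_cast
        ring
      rw [e1, e1, ← mul_sub, ← mul_sub, norm_mul, norm_mul, norm_div, Complex.norm_natCast,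
        Complex.norm_real, Real.norm_of_nonneg (Real.exp_pos _).le]
      have h1 := ex_sub_le (-Real.log n) τ t
      rw [abs_neg, abs_of_nonneg hL] at h1
      have h2 : ‖ex (-Real.log n) τ - ex (-Real.log n) t‖ ≤ h * Real.log n := by
        refine h1.trans ?_
        rw [mul_comm]
        exact mul_le_mul_of_nonneg_right hτ hL
      have h3 := xexp_le (x := h * Real.log n) (by positivity)
      have h4 : Real.exp (-(h * Real.log n)) = Real.exp (-h * Real.log n) := by congr 1; ring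
      have h5 : Real.exp (-(h * Real.log n / 2)) = Real.exp (-(h / 2) * Real.log n) := by
        congr 1
        ring
      rw [h4, h5] at h3
      calc ‖a n‖ / n * (Real.exp (-h * Real.log n) * ‖ex (-Real.log n) τ - ex (-Real.log n) t‖)
          ≤ D / n * (Real.exp (-h * Real.log n) * (h * Real.log n)) := by
            have := ha n
            gcongr
        _ = D / n * (h * Real.log n * Real.exp (-h * Real.log n)) := by ring
        _ ≤ D / n * (2 * (Real.exp (-(h / 2) * Real.log n) - Real.exp (-h * Real.log n))) := by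
            gcongr
        _ = _ := by ring
    · simp
  refine (tsum_of_norm_bounded (hW.hasSum.mul_right (2 * D)) hb).trans ?_
  have h1 := hmass (h / 2) h (by positivity) (by linarith) hhr
  have h2 : h / (h / 2) = 2 := by field_simp
  rw [h2] at h1
  have h3 : Real.log 2 ≤ 1 := by
    have := Real.log_two_lt_d9
    linarith
  nlinarith

/-- The Euler product without the primes below `P`. -/
noncomputable def cut (B : ℕ → ℂ[X]) (P : ℕ) (p : ℕ) : ℂ[X] := if p < P then 1 else B p

section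

variable {w : ℤ} {N : ℕ} {B : ℕ → ℂ[X]} {P : ℕ}

lemma cut_good (hB : PureFrom w N B P) : Good w N (cut B P) (range P) := by
  intro p hp hpP
  have h1 : ¬ p < P := by simpa using hpP
  unfold cut
  rw [if_neg h1]
  exact hB p hp (not_lt.1 h1)

lemma cut_ne (hB : PureFrom w N B P) (p : ℕ) (hp : p.Prime) : cut B P p ≠ 0 := by
  unfold cut
  split_ifs with h
  · exact one_ne_zero
  · intro h0
    obtain ⟨α, -, hα⟩ := hB p hp (not_lt.1 h)
    have := hα 0
    rw [h0] at this
    simp at this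

/-- The coefficients. -/
noncomputable def aC (w : ℤ) (N : ℕ) (B : ℕ → ℂ[X]) (P : ℕ) : ℕ → ℂ :=
  aa (tt N w (cut B P) (range P)) w (range P)

lemma aC_norm (n : ℕ) : ‖aC w N B P n‖ ≤ N := norm_aa tt_WB n

/-- The contribution of the higher powers. -/
noncomputable def AC (w : ℤ) (N : ℕ) (B : ℕ → ℂ[X]) (P : ℕ) : ℂ → ℂ :=
  AA (tt N w (cut B P) (range P)) (range P) (cut B P) w

lemma AC_eq (ζ : ℂ) : AC w N B P ζ =
    Complex.exp (∑' p, RR (tt N w (cut B P) (range P)) (range P) p (eg w ζ)) := by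
  unfold AC AA
  have h2 : ∏ p ∈ range P, BBf (range P) (cut B P) (eg w ζ) p = 1 := by
    refine prod_eq_one fun p hp => ?_
    unfold BBf cut
    split_ifs with h1 h3
    · simp
    · exact absurd (mem_range.1 h1.2) h3
    · rfl
  rw [h2, one_mul]

lemma AC_bound {ζ : ℂ} (hζ : ζ.im ≤ 0) : |Real.log ‖AC w N B P ζ‖| ≤ C2 * N := by
  have ht := tt_WB (N := N) (w := w) (B := cut B P) (S := range P)
  rw [AC_eq, Complex.norm_exp, Real.log_exp]
  refine (Complex.abs_re_le_norm _).trans ?_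
  have h2 : Summable fun n : ℕ => 2 / (n : ℝ) ^ 2 := by
    refine ((Real.summable_one_div_nat_pow.2 one_lt_two).mul_left 2).congr fun n => ?_
    ring
  refine tsum_of_norm_bounded (h2.hasSum.mul_right (N : ℝ)) fun p => ?_
  refine (RR_bound ht p ?_).trans (le_of_eq ?_)
  · rw [eg_re]
    linarith
  · ring

lemma AC_ne (ζ : ℂ) : AC w N B P ζ ≠ 0 := by
  rw [AC_eq]
  exact Complex.exp_ne_zero _

lemma AC_an {ζ : ℂ} (hζ : ζ.im ≤ 0) : AnalyticAt ℂ (AC w N B P) ζ := by
  refine (AA_analytic hζ fun p hp _ => ?_).1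
  unfold cut
  rw [if_pos (mem_range.1 hp)]
  simp

lemma L_eq (hB : PureFrom w N B P) (τ : ℝ) {ε : ℝ} (hε : 0 < ε) :
    LFun (cut B P) (edge w τ + ε) =
      AC w N B P (τ - Complex.I * ε) * Complex.exp (gg (aC w N B P) (τ - Complex.I * ε)) := by
  have hdec := mot_dec (cut_good hB) (cut_ne hB)
  have him : ((τ : ℂ) - Complex.I * ε).im < 0 := by simpa using hε
  have h1 : LFun (cut B P) (eg w (τ - Complex.I * ε)) =
      AC w N B P (τ - Complex.I * ε) * Complex.exp (gg (aC w N B P) (τ - Complex.I * ε)) :=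
    hdec.eqL _ him
  have h2 : eg w (τ - Complex.I * ε) = edge w τ + ε := by
    rw [edge_eg]
    unfold eg
    linear_combination (-(ε : ℂ)) * Complex.I_mul_I
  rw [h2] at h1
  exact h1

lemma L_cont (hB : PureFrom w N B P) {ε : ℝ} (hε : 0 < ε) :
    Continuous fun τ : ℝ => LFun (cut B P) (edge w τ + ε) := by
  have h1 : (fun τ : ℝ => LFun (cut B P) (edge w τ + ε)) = fun τ : ℝ =>
      AC w N B P (τ - Complex.I * ε) * Complex.exp (gg (aC w N B P) (τ - Complex.I * ε)) := by
    funext τ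
    exact L_eq hB τ hε
  rw [h1, continuous_iff_continuousAt]
  intro τ
  have him : ((τ : ℂ) - Complex.I * ε).im < 0 := by simpa using hε
  have h2 : ContinuousAt (fun τ : ℝ => (τ : ℂ) - Complex.I * ε) τ := by fun_prop
  have h3 : ContinuousAt (AC w N B P) ((τ : ℂ) - Complex.I * ε) := (AC_an him.le).continuousAt
  have h4 : ContinuousAt (gg (aC w N B P)) ((τ : ℂ) - Complex.I * ε) := by
    refine ((gg_diff (Nat.cast_nonneg N) (fun p => aC_norm p)).differentiableAt ?_).continuousAt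
    exact (isOpen_lt Complex.continuous_im continuous_const).mem_nhds him
  refine ContinuousAt.mul ?_ ?_
  · exact ContinuousAt.comp (f := fun τ : ℝ => (τ : ℂ) - Complex.I * ε) h3 h2
  · exact (ContinuousAt.comp (f := fun τ : ℝ => (τ : ℂ) - Complex.I * ε) h4 h2).cexp

/-- The logarithm of the Euler product. -/
lemma log_cut (hB : PureFrom w N B P) (τ : ℝ) {ε : ℝ} (hε : 0 < ε) :
    Real.log ‖LFun (cut B P) (edge w τ + ε)‖ =
      Real.log ‖AC w N B P (τ - Complex.I * ε)‖ + (GA (aC w N B P) τ ε).re ∧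
    LFun (cut B P) (edge w τ + ε) ≠ 0 := by
  have hdec := mot_dec (cut_good hB) (cut_ne hB)
  have him : ((τ : ℂ) - Complex.I * ε).im < 0 := by simpa using hε
  have h1 : LFun (cut B P) (eg w (τ - Complex.I * ε)) =
      AC w N B P (τ - Complex.I * ε) * Complex.exp (GA (aC w N B P) τ ε) := hdec.eqL _ him
  have h2 : eg w (τ - Complex.I * ε) = edge w τ + ε := by
    rw [edge_eg]
    unfold eg
    linear_combination (-(ε : ℂ)) * Complex.I_mul_I
  rw [h2] at h1
  have h3 := AC_ne (w := w) (N := N) (B := B) (P := P) (τ - Complex.I * ε)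
  refine ⟨?_, ?_⟩
  · rw [h1, norm_mul, Real.log_mul (norm_ne_zero_iff.2 h3)
      (norm_ne_zero_iff.2 (Complex.exp_ne_zero _)), Complex.norm_exp, Real.log_exp]
  · rw [h1]
    exact mul_ne_zero h3 (Complex.exp_ne_zero _)

/-- **The inequality inside the half-plane.** -/
theorem interior : ∃ K r : ℝ, 0 < K ∧ 0 < r ∧ ∀ (w : ℤ) (N : ℕ) (B : ℕ → ℂ[X]) (P : ℕ),
    PureFrom w N B P → ∀ δ t ε h : ℝ, |δ| * N < 1 → 0 < ε → ε ≤ h → h ≤ r →
    ∫ u in (-h)..h, ‖LFun (cut B P) (edge w (t + u : ℝ) + ε)‖ ^ δ ≤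
      K * h / (1 - |δ| * N) * ‖LFun (cut B P) (edge w t + h)‖ ^ δ := by
  obtain ⟨r₁, hr₁, hhor⟩ := GA_hor
  obtain ⟨r₂, hr₂, hZ⟩ := Zint
  have hC2 := C2_nonneg
  refine ⟨48 * Real.exp (4 + 2 * C2), min r₁ r₂, by positivity, by positivity, ?_⟩
  intro w N B P hB δ t ε h hδ hε hεh hhr
  have hh : 0 < h := hε.trans_le hεh
  have hhr₁ : h ≤ r₁ := hhr.trans (min_le_left _ _)
  have hhr₂ : h ≤ r₂ := hhr.trans (min_le_right _ _)
  have hN0 : (0 : ℝ) ≤ N := Nat.cast_nonneg N
  set a := aC w N B P with ha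
  have han : ∀ n, ‖a n‖ ≤ (N : ℝ) := aC_norm
  have hL : ∀ (τ ε : ℝ), 0 < ε → 0 < ‖LFun (cut B P) (edge w τ + ε)‖ :=
    fun τ ε hε => norm_pos_iff.2 (log_cut hB τ hε).2
  have hpt : ∀ u ∈ Set.Icc (-h) h, ‖LFun (cut B P) (edge w (t + u : ℝ) + ε)‖ ^ δ ≤
      (Real.exp (4 + 2 * C2) * ‖LFun (cut B P) (edge w t + h)‖ ^ δ) *
        Real.exp (2 * (δ / 2 * (SS (WW ε h) a (t + u)).re)) := by
    intro u hu
    rw [Real.rpow_def_of_pos (hL _ _ hε), Real.rpow_def_of_pos (hL _ _ hh), ← Real.exp_add,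
      ← Real.exp_add]
    refine Real.exp_le_exp.2 ?_
    rw [(log_cut hB (t + u) hε).1, (log_cut hB t hh).1]
    have h1 := GA_sub han (t + u) hε hεh
    have h2 := hhor a N han (t + u) t h hh hhr₁ (by
      rw [add_sub_cancel_left]
      exact abs_le.2 hu)
    have h3 := AC_bound (w := w) (N := N) (B := B) (P := P) (ζ := ((t + u : ℝ) : ℂ) - Complex.I * ε)
      (by simpa using hε.le)
    have h4 := AC_bound (w := w) (N := N) (B := B) (P := P) (ζ := (t : ℂ) - Complex.I * h)
      (by simpa using hh.le)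
    set X1 := Real.log ‖AC w N B P (((t + u : ℝ) : ℂ) - Complex.I * ε)‖
    set X2 := Real.log ‖AC w N B P ((t : ℂ) - Complex.I * h)‖
    have h5 : (GA a (t + u) ε).re = (GA a t h).re + (GA a (t + u) h - GA a t h).re +
        (SS (WW ε h) a (t + u)).re := by
      rw [← h1]
      simp only [Complex.sub_re]
      ring
    have h6 := (Complex.abs_re_le_norm (GA a (t + u) h - GA a t h)).trans h2
    set Y := (GA a (t + u) h - GA a t h).re
    have h7 : |X1 - X2 + Y| ≤ (4 + 2 * C2) * N := by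
      calc |X1 - X2 + Y| ≤ |X1| + |X2| + |Y| := by
            refine (abs_add_le _ _).trans (add_le_add ?_ le_rfl)
            exact abs_sub _ _
        _ ≤ C2 * N + C2 * N + 4 * N := by linarith
        _ = _ := by ring
    have h8 : δ * (X1 - X2 + Y) ≤ 4 + 2 * C2 := by
      calc δ * (X1 - X2 + Y) ≤ |δ * (X1 - X2 + Y)| := le_abs_self _
        _ = |δ| * |X1 - X2 + Y| := abs_mul _ _
        _ ≤ |δ| * ((4 + 2 * C2) * N) := by gcongr
        _ = (|δ| * N) * (4 + 2 * C2) := by ring
        _ ≤ 1 * (4 + 2 * C2) := by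
            refine mul_le_mul_of_nonneg_right hδ.le (by positivity)
        _ = 4 + 2 * C2 := one_mul _
    rw [h5]
    have h9 : (X1 + ((GA a t h).re + Y + (SS (WW ε h) a (t + u)).re)) * δ =
        (δ * (X1 - X2 + Y)) + (X2 + (GA a t h).re) * δ +
          2 * (δ / 2 * (SS (WW ε h) a (t + u)).re) := by ring
    rw [h9]
    linarith
  have hWs := WW_summable hε hεh
  have hW0 := WW_nonneg hεh
  have hcontS : Continuous fun u : ℝ => SS (WW ε h) a (t + u) := by
    have h1 : Continuous fun u : ℝ => SS (WW ε h) a u := by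
      unfold SS
      refine continuous_tsum (u := fun n => WW ε h n * N) (fun n => ?_) (hWs.mul_right _)
        fun n u => ?_
      · exact continuous_const.mul (continuous_const.mul (ex_cont _))
      · rw [norm_mul, norm_mul, norm_ex, mul_one, Complex.norm_real, Real.norm_of_nonneg (hW0 n)]
        exact mul_le_mul_of_nonneg_left (han n) (hW0 n)
    fun_prop
  have hcontL : Continuous fun u : ℝ => ‖LFun (cut B P) (edge w (t + u : ℝ) + ε)‖ ^ δ := by
    have h1 : Continuous fun τ : ℝ => ‖LFun (cut B P) (edge w τ + ε)‖ ^ δ :=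
      (L_cont hB hε).norm.rpow_const fun τ => Or.inl (hL τ ε hε).ne'
    exact h1.comp (continuous_const.add continuous_id)
  have hexp := exp_maj hW0 hWs han (α := δ / 2) hh t
  have hZ' := hZ ε h (|δ| * N) hε hεh hhr₂ (by positivity) hδ
  have hβ : ∀ u : ℝ, Real.exp (2 * (|δ / 2| * N * (SS (WW ε h) (fun _ => 1) u).re)) =
      Real.exp (|δ| * N * (SS (WW ε h) (fun _ => 1) u).re) := by
    intro u
    rw [abs_div, abs_of_pos (by norm_num : (0 : ℝ) < 2)]
    congr 1
    ring
  simp_rw [hβ] at hexp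
  calc ∫ u in (-h)..h, ‖LFun (cut B P) (edge w (t + u : ℝ) + ε)‖ ^ δ
      ≤ ∫ u in (-h)..h, (Real.exp (4 + 2 * C2) * ‖LFun (cut B P) (edge w t + h)‖ ^ δ) *
        Real.exp (2 * (δ / 2 * (SS (WW ε h) a (t + u)).re)) := by
        refine integral_mono_on (by linarith) (hcontL.intervalIntegrable _ _) ?_ hpt
        refine Continuous.intervalIntegrable ?_ _ _
        fun_prop
    _ = (Real.exp (4 + 2 * C2) * ‖LFun (cut B P) (edge w t + h)‖ ^ δ) *
        ∫ u in (-h)..h, Real.exp (2 * (δ / 2 * (SS (WW ε h) a (t + u)).re)) := by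
        rw [intervalIntegral.integral_const_mul]
    _ ≤ (Real.exp (4 + 2 * C2) * ‖LFun (cut B P) (edge w t + h)‖ ^ δ) *
        (2 * (24 * h / (1 - |δ| * N))) := by
        refine mul_le_mul_of_nonneg_left ?_ (by positivity)
        exact hexp.trans (mul_le_mul_of_nonneg_left hZ' (by norm_num))
    _ = _ := by ring

end

end Pool.Agent.R385.MW
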