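import Mathlib

/-!
# The majorant principle
-/

set_option autoImplicit false

namespace Pool.Agent.R385.MW

open MeasureTheory Finset intervalIntegral

/-- The exponential `e^{iλu}`. -/
noncomputable def ex (l u : ℝ) : ℂ := Complex.exp ((l * u : ℝ) * Complex.I)

lemma norm_ex (l u : ℝ) : ‖ex l u‖ = 1 := Complex.norm_exp_ofReal_mul_I _

lemma ex_mul (l l' u : ℝ) : ex l u * ex l' u = ex (l + l') u := by
  unfold ex
  rw [← Complex.exp_add]
  congr 1
  push_cast
  ring

lemma ex_shift (l t u : ℝ) : ex l (t + u) = ex l t * ex l u := by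
  unfold ex
  rw [← Complex.exp_add]
  congr 1
  push_cast
  ring

lemma ex_conj (l u : ℝ) : (starRingEnd ℂ) (ex l u) = ex (-l) u := by
  unfold ex
  rw [← Complex.exp_conj, map_mul, Complex.conj_I, Complex.conj_ofReal]
  congr 1
  push_cast
  ring

lemma ex_cont (l : ℝ) : Continuous (ex l) := by
  unfold ex
  fun_prop

/-- `F` is a finite exponential sum with majorant `G`. -/
def IsMaj (F G : ℝ → ℂ) : Prop := ∃ (ι : Type) (_ : Fintype ι) (c : ι → ℂ) (d l : ι → ℝ),
  (∀ i, ‖c i‖ ≤ d i) ∧ (∀ u, F u = ∑ i, c i * ex (l i) u) ∧ ∀ u, G u = ∑ i, (d i : ℂ) * ex (l i) u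

lemma IsMaj.add {F G F' G' : ℝ → ℂ} (h : IsMaj F G) (h' : IsMaj F' G') :
    IsMaj (fun u => F u + F' u) (fun u => G u + G' u) := by
  obtain ⟨ι, _, c, d, l, h1, h2, h3⟩ := h
  obtain ⟨ι', _, c', d', l', h1', h2', h3'⟩ := h'
  refine ⟨ι ⊕ ι', inferInstance, Sum.elim c c', Sum.elim d d', Sum.elim l l', ?_, ?_, ?_⟩
  · rintro (i | i)
    · exact h1 i
    · exact h1' i
  · intro u
    dsimp only
    rw [h2, h2', Fintype.sum_sum_type]
    rfl
  · intro u
    dsimp only
    rw [h3, h3', Fintype.sum_sum_type]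
    rfl

lemma IsMaj.mul {F G F' G' : ℝ → ℂ} (h : IsMaj F G) (h' : IsMaj F' G') :
    IsMaj (fun u => F u * F' u) (fun u => G u * G' u) := by
  obtain ⟨ι, _, c, d, l, h1, h2, h3⟩ := h
  obtain ⟨ι', _, c', d', l', h1', h2', h3'⟩ := h'
  refine ⟨ι × ι', inferInstance, fun i => c i.1 * c' i.2, fun i => d i.1 * d' i.2,
    fun i => l i.1 + l' i.2, ?_, ?_, ?_⟩
  · rintro ⟨i, j⟩
    rw [norm_mul]
    exact mul_le_mul (h1 i) (h1' j) (norm_nonneg _) ((norm_nonneg _).trans (h1 i))
  · intro u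
    dsimp only
    rw [h2, h2', sum_mul_sum, Fintype.sum_prod_type]
    refine sum_congr rfl fun i _ => sum_congr rfl fun j _ => ?_
    rw [← ex_mul]
    ring
  · intro u
    dsimp only
    rw [h3, h3', sum_mul_sum, Fintype.sum_prod_type]
    refine sum_congr rfl fun i _ => sum_congr rfl fun j _ => ?_
    rw [← ex_mul]
    push_cast
    ring

lemma IsMaj.one : IsMaj (fun _ => 1) (fun _ => 1) := by
  refine ⟨Unit, inferInstance, fun _ => 1, fun _ => 1, fun _ => 0, by simp, fun u => ?_,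
    fun u => ?_⟩ <;> simp [ex]

lemma IsMaj.pow {F G : ℝ → ℂ} (h : IsMaj F G) (n : ℕ) :
    IsMaj (fun u => F u ^ n) (fun u => G u ^ n) := by
  induction n with
  | zero => simpa using IsMaj.one
  | succ n ih =>
    have := ih.mul h
    simpa [pow_succ] using this

lemma IsMaj.smul {F G : ℝ → ℂ} (h : IsMaj F G) {x : ℝ} (hx : 0 ≤ x) :
    IsMaj (fun u => (x : ℂ) * F u) (fun u => (x : ℂ) * G u) := by
  obtain ⟨ι, _, c, d, l, h1, h2, h3⟩ := h
  refine ⟨ι, inferInstance, fun i => x * c i, fun i => x * d i, l, ?_, ?_, ?_⟩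
  · intro i
    rw [norm_mul, Complex.norm_real, Real.norm_of_nonneg hx]
    exact mul_le_mul_of_nonneg_left (h1 i) hx
  · intro u
    dsimp only
    rw [h2, mul_sum]
    refine sum_congr rfl fun i _ => ?_
    ring
  · intro u
    dsimp only
    rw [h3, mul_sum]
    refine sum_congr rfl fun i _ => ?_
    push_cast
    ring

lemma IsMaj.cont {F G : ℝ → ℂ} (h : IsMaj F G) : Continuous F ∧ Continuous G := by
  obtain ⟨ι, _, c, d, l, h1, h2, h3⟩ := h
  constructor
  · have : F = fun u => ∑ i, c i * ex (l i) u := funext h2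
    rw [this]
    exact continuous_finsetSum _ fun i _ => continuous_const.mul (ex_cont _)
  · have : G = fun u => ∑ i, (d i : ℂ) * ex (l i) u := funext h3
    rw [this]
    exact continuous_finsetSum _ fun i _ => continuous_const.mul (ex_cont _)

/-- The Fourier transform of the tent is not negative. -/
lemma tent_hat {T : ℝ} (hT : 0 < T) (l : ℝ) : ∃ κ : ℝ, 0 ≤ κ ∧
    ∫ u in (-T)..T, ((1 - |u| / T : ℝ) : ℂ) * ex l u = κ := by
  -- the two halves
  have hI1 : IntervalIntegrable (fun u : ℝ => ((1 - |u| / T : ℝ) : ℂ) * ex l u) volume (-T) 0 := by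
    refine Continuous.intervalIntegrable ?_ _ _
    have := ex_cont l
    fun_prop
  have hI2 : IntervalIntegrable (fun u : ℝ => ((1 - |u| / T : ℝ) : ℂ) * ex l u) volume 0 T := by
    refine Continuous.intervalIntegrable ?_ _ _
    have := ex_cont l
    fun_prop
  have h1 : ∫ u in (-T)..0, ((1 - |u| / T : ℝ) : ℂ) * ex l u =
      ∫ u in (0 : ℝ)..T, ((1 - |u| / T : ℝ) : ℂ) * ex (-l) u := by
    have h2 := integral_comp_neg (a := 0) (b := T)
      (f := fun u : ℝ => ((1 - |u| / T : ℝ) : ℂ) * ex l u)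
    rw [neg_zero] at h2
    rw [← h2]
    refine integral_congr fun u _ => ?_
    simp only [abs_neg]
    congr 1
    unfold ex
    congr 2
    push_cast
    ring
  have h3 : ∫ u in (-T)..T, ((1 - |u| / T : ℝ) : ℂ) * ex l u =
      ∫ u in (0 : ℝ)..T, (((1 - u / T) * (2 * Real.cos (l * u)) : ℝ) : ℂ) := by
    rw [← integral_add_adjacent_intervals hI1 hI2, h1, ← integral_add ?_ hI2]
    · refine integral_congr fun u hu => ?_
      rw [Set.uIcc_of_le hT.le] at hu
      rw [abs_of_nonneg hu.1]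
      have h4 : ex (-l) u + ex l u = ((2 * Real.cos (l * u) : ℝ) : ℂ) := by
        rw [← ex_conj, add_comm, Complex.add_conj]
        unfold ex
        rw [Complex.exp_ofReal_mul_I_re]
      rw [← mul_add, h4]
      push_cast
      ring
    · refine Continuous.intervalIntegrable ?_ _ _
      have := ex_cont (-l)
      fun_prop
  rw [h3, intervalIntegral.integral_ofReal]
  refine ⟨_, ?_, rfl⟩
  rcases eq_or_ne l 0 with hl | hl
  · rw [hl]
    refine integral_nonneg hT.le fun u hu => ?_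
    have : 0 ≤ 1 - u / T := by
      rw [sub_nonneg, div_le_one hT]
      exact hu.2
    simp only [zero_mul, Real.cos_zero, mul_one]
    positivity
  · have hd : ∀ u ∈ Set.uIcc 0 T, HasDerivAt (fun u : ℝ => 2 * ((1 - u / T) * Real.sin (l * u) / l -
        Real.cos (l * u) / (T * l ^ 2))) ((1 - u / T) * (2 * Real.cos (l * u))) u := by
      intro u _
      have h4 : HasDerivAt (fun u : ℝ => l * u) l u := by
        simpa using (hasDerivAt_id u).const_mul l
      have h5 := h4.sin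
      have h6 := h4.cos
      have h7 : HasDerivAt (fun u : ℝ => 1 - u / T) (-(1 / T)) u := by
        simpa using ((hasDerivAt_id u).div_const T).const_sub 1
      have h8 := (((h7.mul h5).div_const l).sub (h6.div_const (T * l ^ 2))).const_mul 2
      refine h8.congr_deriv ?_
      field_simp
      ring
    rw [integral_eq_sub_of_hasDerivAt hd (by
      refine Continuous.intervalIntegrable ?_ _ _
      fun_prop)]
    have h4 : 2 * ((1 - T / T) * Real.sin (l * T) / l - Real.cos (l * T) / (T * l ^ 2)) -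
        2 * ((1 - 0 / T) * Real.sin (l * 0) / l - Real.cos (l * 0) / (T * l ^ 2)) =
        2 * (1 - Real.cos (l * T)) / (T * l ^ 2) := by
      rw [div_self hT.ne']
      simp
      ring
    rw [h4]
    have h5 := Real.cos_le_one (l * T)
    have : 0 ≤ 1 - Real.cos (l * T) := by linarith
    positivity

/-- **The majorant principle**, with the tent. -/
lemma IsMaj.tent {F G : ℝ → ℂ} (h : IsMaj F G) {T : ℝ} (hT : 0 < T) (t : ℝ) :
    ∫ u in (-T)..T, (1 - |u| / T) * ‖F (t + u)‖ ^ 2 ≤ ∫ u in (-T)..T, (1 - |u| / T) * ‖G u‖ ^ 2 := by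
  obtain ⟨ι, _, c, d, l, h1, h2, h3⟩ := h
  choose κ hκ0 hκ using fun l => tent_hat hT l
  -- the expansion
  have hexp : ∀ (c : ι → ℂ), ((∫ u in (-T)..T, (1 - |u| / T) * ‖∑ i, c i * ex (l i) u‖ ^ 2 : ℝ) : ℂ) =
      ∑ i, ∑ j, c i * (starRingEnd ℂ) (c j) * κ (l i - l j) := by
    intro c
    rw [← intervalIntegral.integral_ofReal]
    have e1 : ∀ u : ℝ, (((1 - |u| / T) * ‖∑ i, c i * ex (l i) u‖ ^ 2 : ℝ) : ℂ) =
        ∑ i, ∑ j, c i * (starRingEnd ℂ) (c j) * (((1 - |u| / T : ℝ) : ℂ) * ex (l i - l j) u) := by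
      intro u
      have e2 : ((‖∑ i, c i * ex (l i) u‖ ^ 2 : ℝ) : ℂ) =
          (∑ i, c i * ex (l i) u) * (starRingEnd ℂ) (∑ i, c i * ex (l i) u) := by
        rw [Complex.mul_conj, Complex.normSq_eq_norm_sq]
      rw [Complex.ofReal_mul, e2, map_sum, sum_mul_sum, mul_sum]
      refine sum_congr rfl fun i _ => ?_
      rw [mul_sum]
      refine sum_congr rfl fun j _ => ?_
      have e4 : ex (l i - l j) u = ex (l i) u * ex (-l j) u := by rw [ex_mul, sub_eq_add_neg]
      rw [map_mul, ex_conj, e4]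
      ring
    simp_rw [e1]
    have hint : ∀ (x : ℂ) (m : ℝ), IntervalIntegrable
        (fun u : ℝ => x * (((1 - |u| / T : ℝ) : ℂ) * ex m u)) volume (-T) T := by
      intro x m
      refine Continuous.intervalIntegrable ?_ _ _
      have := ex_cont m
      fun_prop
    rw [intervalIntegral.integral_finsetSum fun i _ => ?_]
    · refine sum_congr rfl fun i _ => ?_
      rw [intervalIntegral.integral_finsetSum fun j _ => hint _ _]
      refine sum_congr rfl fun j _ => ?_
      rw [intervalIntegral.integral_const_mul, hκ]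
    · refine Continuous.intervalIntegrable ?_ _ _
      refine continuous_finsetSum _ fun j _ => ?_
      have := ex_cont (l i - l j)
      fun_prop
  have hF : ∫ u in (-T)..T, (1 - |u| / T) * ‖F (t + u)‖ ^ 2 =
      ∫ u in (-T)..T, (1 - |u| / T) * ‖∑ i, (c i * ex (l i) t) * ex (l i) u‖ ^ 2 := by
    refine integral_congr fun u _ => ?_
    rw [h2]
    congr 3
    refine sum_congr rfl fun i _ => ?_
    rw [ex_shift]
    ring
  have hG : ∫ u in (-T)..T, (1 - |u| / T) * ‖G u‖ ^ 2 =
      ∫ u in (-T)..T, (1 - |u| / T) * ‖∑ i, (d i : ℂ) * ex (l i) u‖ ^ 2 := by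
    refine integral_congr fun u _ => ?_
    rw [h3]
  have hF2 := hexp fun i => c i * ex (l i) t
  have hG2 := hexp fun i => (d i : ℂ)
  rw [hF, hG]
  have hG3 : ∫ u in (-T)..T, (1 - |u| / T) * ‖∑ i, (d i : ℂ) * ex (l i) u‖ ^ 2 =
      ∑ i, ∑ j, d i * d j * κ (l i - l j) := by
    have e3 : ((∫ u in (-T)..T, (1 - |u| / T) * ‖∑ i, (d i : ℂ) * ex (l i) u‖ ^ 2 : ℝ) : ℂ) =
        ((∑ i, ∑ j, d i * d j * κ (l i - l j) : ℝ) : ℂ) := by
      rw [hG2]
      push_cast
      refine sum_congr rfl fun i _ => sum_congr rfl fun j _ => ?_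
      rw [Complex.conj_ofReal]
    exact_mod_cast e3
  rw [hG3]
  have hF3 : |∫ u in (-T)..T, (1 - |u| / T) * ‖∑ i, (c i * ex (l i) t) * ex (l i) u‖ ^ 2| ≤
      ∑ i, ∑ j, d i * d j * κ (l i - l j) := by
    rw [← Real.norm_eq_abs, ← Complex.norm_real, hF2]
    refine norm_sum_le_of_le _ fun i _ => norm_sum_le_of_le _ fun j _ => ?_
    rw [norm_mul, norm_mul, RCLike.norm_conj, norm_mul, norm_mul, norm_ex, norm_ex, mul_one,
      mul_one, Complex.norm_real, Real.norm_of_nonneg (hκ0 _)]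
    refine mul_le_mul_of_nonneg_right ?_ (hκ0 _)
    exact mul_le_mul (h1 i) (h1 j) (norm_nonneg _) ((norm_nonneg _).trans (h1 i))
  exact (le_abs_self _).trans hF3

/-- **The majorant principle.** -/
theorem IsMaj.le {F G : ℝ → ℂ} (h : IsMaj F G) {T : ℝ} (hT : 0 < T) (t : ℝ) :
    ∫ u in (-T)..T, ‖F (t + u)‖ ^ 2 ≤ 2 * ∫ u in (-(2 * T))..(2 * T), ‖G u‖ ^ 2 := by
  obtain ⟨hFc, hGc⟩ := h.cont
  have h1 := h.tent (T := 2 * T) (by positivity) t
  have hFc' : Continuous fun u : ℝ => ‖F (t + u)‖ ^ 2 := by fun_prop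
  have hGc' : Continuous fun u : ℝ => ‖G u‖ ^ 2 := by fun_prop
  have h2 : ∫ u in (-T)..T, ‖F (t + u)‖ ^ 2 ≤
      2 * ∫ u in (-(2 * T))..(2 * T), (1 - |u| / (2 * T)) * ‖F (t + u)‖ ^ 2 := by
    rw [← intervalIntegral.integral_const_mul]
    have hci : Continuous fun u : ℝ => 2 * ((1 - |u| / (2 * T)) * ‖F (t + u)‖ ^ 2) := by fun_prop
    calc ∫ u in (-T)..T, ‖F (t + u)‖ ^ 2
        ≤ ∫ u in (-T)..T, 2 * ((1 - |u| / (2 * T)) * ‖F (t + u)‖ ^ 2) := by
          refine integral_mono_on (by linarith) (hFc'.intervalIntegrable _ _)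
            (hci.intervalIntegrable _ _) fun u hu => ?_
          have h3 : |u| ≤ T := abs_le.2 hu
          have h4 : |u| / (2 * T) ≤ 1 / 2 := by
            rw [div_le_iff₀ (by positivity)]
            linarith
          have h5 : 0 ≤ ‖F (t + u)‖ ^ 2 := by positivity
          nlinarith
      _ ≤ ∫ u in (-(2 * T))..(2 * T), 2 * ((1 - |u| / (2 * T)) * ‖F (t + u)‖ ^ 2) := by
          refine integral_mono_interval (by linarith) (by linarith) (by linarith) ?_
            (hci.intervalIntegrable _ _)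
          refine (ae_restrict_iff' measurableSet_Ioc).2 (Filter.Eventually.of_forall fun u hu => ?_)
          have h3 : |u| ≤ 2 * T := abs_le.2 ⟨hu.1.le, hu.2⟩
          have h4 : |u| / (2 * T) ≤ 1 := by
            rw [div_le_one (by positivity)]
            exact h3
          have h5 : 0 ≤ 1 - |u| / (2 * T) := by linarith
          simp only [Pi.zero_apply]
          positivity
  have h3 : ∫ u in (-(2 * T))..(2 * T), (1 - |u| / (2 * T)) * ‖G u‖ ^ 2 ≤
      ∫ u in (-(2 * T))..(2 * T), ‖G u‖ ^ 2 := by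
    have hci : Continuous fun u : ℝ => (1 - |u| / (2 * T)) * ‖G u‖ ^ 2 := by fun_prop
    refine integral_mono_on (by linarith) (hci.intervalIntegrable _ _)
      (hGc'.intervalIntegrable _ _) fun u _ => ?_
    have h4 : 0 ≤ |u| / (2 * T) := by positivity
    have h5 : 0 ≤ ‖G u‖ ^ 2 := by positivity
    nlinarith
  linarith

end Pool.Agent.R385.MW
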