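import Pool.Agent.R385.MW.All

/-!
# The range of the exponents is sharp
-/

set_option autoImplicit false

namespace Pool.Agent.R385.MW

open MeasureTheory Finset intervalIntegral Filter Topology Pool.Agent.R385.MC Pool.Agent.R385.DT
  Pool.Agent.W350.Edge Polynomial

/-- The Euler factors of the `N`-th power of the zeta function. -/
noncomputable def BN (N : ℕ) (_ : ℕ) : ℂ[X] := (1 - X) ^ N

lemma BN_pure (N : ℕ) : PureFrom 0 N (BN N) 0 := by
  intro p _ _
  refine ⟨fun _ => 1, fun _ => by simp, fun z => ?_⟩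
  unfold BN
  simp

lemma BN_L (N : ℕ) {s : ℂ} (hs : 1 < s.re) : LFun (cut (BN N) 0) s = riemannZeta s ^ N := by
  have h1 := (riemannZeta_eulerProduct_hasProd hs)
  have h2 : HasProd (fun p : Nat.Primes => ((1 - (p : ℂ) ^ (-s))⁻¹) ^ N) (riemannZeta s ^ N) := by
    induction N with
    | zero => simp
    | succ n ih => simpa [pow_succ] using ih.mul h1
  unfold LFun
  rw [← h2.tprod_eq]
  refine tprod_congr fun p => ?_
  unfold MC.factor cut BN
  simp

lemma BN_mod {N : ℕ} (hN : 1 ≤ N) : ∀ᵐ τ : ℝ,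
    modulus 0 (cut (BN N) 0) τ ^ (1 / (N : ℝ)) = ‖riemannZeta (1 + τ * Complex.I)‖ := by
  have h0 : ∀ᵐ τ : ℝ, τ ≠ 0 := by
    have : volume ({0} : Set ℝ) = 0 := by simp
    rw [ae_iff]
    simp
  have hN0 : (N : ℝ) ≠ 0 := by
    have : 0 < N := hN
    positivity
  filter_upwards [radial_cut (BN_pure N), h0] with τ h1 h2
  have h3 : Tendsto (fun ε : ℝ => ‖LFun (cut (BN N) 0) (edge 0 τ + ε)‖) (𝓝[>] 0)
      (𝓝 (‖riemannZeta (1 + τ * Complex.I)‖ ^ N)) := by
    have hne : (1 : ℂ) + τ * Complex.I ≠ 1 := by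
      intro h
      have h4 : (τ : ℂ) * Complex.I = 0 := by linear_combination h
      rcases mul_eq_zero.1 h4 with h5 | h5
      · exact h2 (by exact_mod_cast h5)
      · exact Complex.I_ne_zero h5
    have h4 : Tendsto (fun ε : ℝ => (1 : ℂ) + τ * Complex.I + ε) (𝓝[>] 0)
        (𝓝 (1 + τ * Complex.I)) := by
      have h5 : Continuous fun ε : ℝ => (1 : ℂ) + τ * Complex.I + ε := by fun_prop
      have h6 := h5.tendsto 0
      simp only [Complex.ofReal_zero, add_zero] at h6
      exact h6.mono_left nhdsWithin_le_nhds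
    have h5 := (((differentiableAt_riemannZeta hne).continuousAt.tendsto.comp h4).norm).pow N
    refine h5.congr' ?_
    filter_upwards [self_mem_nhdsWithin] with ε hε
    have hε' : 0 < ε := hε
    have h6 : edge 0 τ + ε = 1 + τ * Complex.I + ε := by
      unfold edge
      simp
    rw [h6, BN_L N (by simpa using hε'), norm_pow]
    rfl
  rw [tendsto_nhds_unique h1.2 h3, ← Real.rpow_natCast, ← Real.rpow_mul (norm_nonneg _),
    mul_one_div_cancel hN0, Real.rpow_one]

theorem sharp {N : ℕ} (hN : 1 ≤ N) {h : ℝ} (hh : 0 < h) :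
    ¬ IntervalIntegrable (fun τ => modulus 0 (cut (BN N) 0) τ ^ (1 / (N : ℝ))) volume (-h) h := by
  have h1 : ¬ IntervalIntegrable (fun τ : ℝ => ‖riemannZeta (1 + τ * Complex.I)‖) volume
      (-h) h := by
    refine not_intervalIntegrable_of_sub_inv_isBigO_punctured (c := 0) ?_ (by linarith) ?_
    · have h2 := riemannZeta_residue_one.norm
      rw [norm_one] at h2
      have h3 : Tendsto (fun τ : ℝ => (1 : ℂ) + τ * Complex.I) (𝓝[≠] 0) (𝓝[≠] 1) := by
        refine tendsto_nhdsWithin_iff.2 ⟨?_, ?_⟩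
        · have h5 : Continuous fun τ : ℝ => (1 : ℂ) + τ * Complex.I := by fun_prop
          have h6 := h5.tendsto 0
          simp only [Complex.ofReal_zero, zero_mul, add_zero] at h6
          exact h6.mono_left nhdsWithin_le_nhds
        · filter_upwards [self_mem_nhdsWithin] with τ hτ
          intro h7
          have h7' : (1 : ℂ) + τ * Complex.I = 1 := h7
          have h4 : (τ : ℂ) * Complex.I = 0 := by linear_combination h7'
          rcases mul_eq_zero.1 h4 with h5 | h5
          · exact hτ (by exact_mod_cast h5)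
          · exact Complex.I_ne_zero h5
      have h4 := (h2.comp h3).eventually (lt_mem_nhds (show (1 / 2 : ℝ) < 1 by norm_num))
      refine Asymptotics.IsBigO.of_bound 2 ?_
      filter_upwards [h4, self_mem_nhdsWithin] with τ h5 hτ
      have hτ0 : 0 < |τ| := abs_pos.2 hτ
      simp only [Function.comp_apply, norm_mul, add_sub_cancel_left, Complex.norm_real,
        Complex.norm_I, mul_one, Real.norm_eq_abs] at h5
      rw [sub_zero, norm_inv, Real.norm_eq_abs, norm_norm, inv_eq_one_div, div_le_iff₀ hτ0]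
      nlinarith
    · rw [Set.uIcc_of_le (by linarith)]
      exact ⟨by linarith, hh.le⟩
  intro h2
  refine h1 (h2.congr_ae ?_)
  exact ae_restrict_of_ae (BN_mod hN)

end Pool.Agent.R385.MW
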