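import Pool.Agent.R385.MW.Exp
import Pool.Agent.R385.DT.Wt2

/-!
# The majorant: the zeta function near `1`
-/

set_option autoImplicit false

namespace Pool.Agent.R385.MW

open MeasureTheory Finset intervalIntegral Filter Topology Pool.Agent.R385.MC Pool.Agent.R385.DT

/-- The size of the exponential of the prime sum of the zeta function near the point `1`. -/
lemma zeta_size : ∃ r c : ℝ, 0 < r ∧ 0 < c ∧ ∀ ζ : ℂ, ζ.im < 0 → ‖ζ‖ < r →
    c / 2 ≤ ‖ζ‖ * Real.exp (gg TA.az ζ).re ∧ ‖ζ‖ * Real.exp (gg TA.az ζ).re ≤ 2 * c := by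
  set A := AA (tt 1 0 BZ ∅) ∅ BZ 0 with hA
  have hdec := mot_dec BZ_good BZ_ne
  have hAa : AnalyticAt ℂ A 0 ∧ A 0 ≠ 0 := AA_analytic (by simp) (by simp)
  have h1 : Tendsto (fun ζ : ℂ => ‖((1 : ℂ) + Complex.I * ζ - 1) * riemannZeta (1 + Complex.I * ζ)‖ /
      ‖A ζ‖) (𝓝[≠] 0) (𝓝 (‖(1 : ℂ)‖ / ‖A 0‖)) := by
    have h2 : Tendsto (fun ζ : ℂ => (1 : ℂ) + Complex.I * ζ) (𝓝[≠] 0) (𝓝[≠] 1) := by
      refine tendsto_nhdsWithin_iff.2 ⟨?_, ?_⟩
      · have h3 : Continuous fun ζ : ℂ => (1 : ℂ) + Complex.I * ζ := by fun_prop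
        have h4 := h3.tendsto 0
        simp only [mul_zero, add_zero] at h4
        exact h4.mono_left nhdsWithin_le_nhds
      · filter_upwards [self_mem_nhdsWithin] with ζ hζ
        have hζ' : ζ ≠ 0 := hζ
        simp only [Set.mem_compl_iff, Set.mem_singleton_iff, add_eq_left]
        exact mul_ne_zero Complex.I_ne_zero hζ'
    have h3 := (riemannZeta_residue_one.comp h2).norm
    have h4 : Tendsto (fun ζ : ℂ => ‖A ζ‖) (𝓝[≠] 0) (𝓝 ‖A 0‖) :=
      (hAa.1.continuousAt.tendsto.mono_left nhdsWithin_le_nhds).norm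
    exact h3.div h4 (norm_ne_zero_iff.2 hAa.2)
  set c := ‖(1 : ℂ)‖ / ‖A 0‖ with hc
  have hc0 : 0 < c := by
    have := norm_pos_iff.2 hAa.2
    rw [hc, norm_one]
    positivity
  have h2 := (h1.eventually (Ioo_mem_nhds (by linarith : c / 2 < c) (by linarith : c < 2 * c)))
  rw [eventually_nhdsWithin_iff, Metric.eventually_nhds_iff_ball] at h2
  obtain ⟨r, hr, hall⟩ := h2
  refine ⟨r, c, hr, hc0, fun ζ him hζ => ?_⟩
  have hne : ζ ≠ 0 := by
    intro h
    rw [h] at him
    simp at him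
  have h3 := hall ζ (by rwa [mem_ball_zero_iff]) hne
  have h4 : LFun BZ (eg 0 ζ) = A ζ * Complex.exp (gg TA.az ζ) := hdec.eqL ζ him
  have h5 : eg 0 ζ = 1 + Complex.I * ζ := by
    unfold eg
    simp
  have hre : 1 < (1 + Complex.I * ζ).re := by
    rw [← h5, eg_re]
    simp only [Int.cast_zero, zero_div, zero_add]
    linarith
  have h6 : LFun BZ (1 + Complex.I * ζ) = riemannZeta (1 + Complex.I * ζ) := by
    unfold LFun MC.factor
    simp_rw [BZ_eval]
    exact riemannZeta_eulerProduct_tprod hre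
  have hAne : A ζ ≠ 0 := (AA_analytic (S := ∅) him.le (by simp)).2
  rw [h5, h6] at h4
  have h7 : ‖((1 : ℂ) + Complex.I * ζ - 1) * riemannZeta (1 + Complex.I * ζ)‖ / ‖A ζ‖ =
      ‖ζ‖ * Real.exp (gg TA.az ζ).re := by
    rw [h4, add_sub_cancel_left, norm_mul, norm_mul, norm_mul, Complex.norm_I, one_mul,
      Complex.norm_exp]
    have := norm_ne_zero_iff.2 hAne
    field_simp
  rw [h7] at h3
  exact ⟨h3.1.le, h3.2.le⟩

/-- The majorant. -/
lemma SS_one (u : ℝ) {ε h : ℝ} (hε : 0 < ε) (hεh : ε ≤ h) :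
    SS (WW ε h) (fun _ => 1) u = gg TA.az (u - Complex.I * ε) - gg TA.az (u - Complex.I * h) := by
  rw [gg_eq_ite, gg_eq_ite,
    ← (gsum_summable TA.az_norm hε u).tsum_sub (gsum_summable TA.az_norm (hε.trans_le hεh) u)]
  unfold SS
  refine tsum_congr fun n => ?_
  unfold WW
  split_ifs with hp
  · rw [TA.az_prime hp]
    have e1 : ∀ ε : ℝ, Complex.exp (-(ε + u * Complex.I) * Real.log n) =
        ((Real.exp (-ε * Real.log n) : ℝ) : ℂ) * ex (-Real.log n) u := by
      intro ε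
      unfold ex
      rw [Complex.ofReal_exp, ← Complex.exp_add]
      congr 1
      push_cast
      ring
    rw [e1, e1]
    push_cast
    ring
  · simp

lemma SS_one_le : ∃ r : ℝ, 0 < r ∧ ∀ ε h u : ℝ, 0 < ε → ε ≤ h → 3 * h < r → u ≠ 0 → |u| ≤ 2 * h →
    (SS (WW ε h) (fun _ => 1) u).re ≤ Real.log (12 * h / |u|) := by
  obtain ⟨r, c, hr, hc, hall⟩ := zeta_size
  refine ⟨r, hr, ?_⟩
  intro ε h u hε hεh hhr hu hu2
  have hu0 : 0 < |u| := abs_pos.2 hu
  have hh : 0 < h := hε.trans_le hεh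
  have hn : ∀ x : ℝ, 0 < x → x ≤ h → |u| ≤ ‖(u : ℂ) - Complex.I * x‖ ∧
      ‖(u : ℂ) - Complex.I * x‖ ≤ 3 * h := by
    intro x hx hxh
    constructor
    · have h1 := Complex.abs_re_le_norm ((u : ℂ) - Complex.I * x)
      simpa using h1
    · refine (norm_sub_le _ _).trans ?_
      rw [norm_mul, Complex.norm_I, one_mul, Complex.norm_real, Complex.norm_real,
        Real.norm_eq_abs, Real.norm_of_nonneg hx.le]
      linarith
  have him : ∀ x : ℝ, 0 < x → ((u : ℂ) - Complex.I * x).im < 0 := by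
    intro x hx
    simpa using hx
  obtain ⟨h1, h2⟩ := hn ε hε hεh
  obtain ⟨h3, h4⟩ := hn h hh le_rfl
  have h5 := hall _ (him ε hε) (h2.trans_lt hhr)
  have h6 := hall _ (him h hh) (h4.trans_lt hhr)
  rw [SS_one u hε hεh, Complex.sub_re]
  set X := (gg TA.az (u - Complex.I * ε)).re with hX
  set Y := (gg TA.az (u - Complex.I * h)).re with hY
  rw [← Real.log_exp (X - Y)]
  refine Real.log_le_log (Real.exp_pos _) ?_
  rw [Real.exp_sub, div_le_div_iff₀ (Real.exp_pos _) hu0]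
  have h7 : 0 < Real.exp Y := Real.exp_pos _
  have h8 : 0 < Real.exp X := Real.exp_pos _
  -- `|u| e^X ≤ 2c`, `c/2 ≤ 3h e^Y`
  have h9 : |u| * Real.exp X ≤ 2 * c :=
    (mul_le_mul_of_nonneg_right h1 h8.le).trans h5.2
  have h10 : c / 2 ≤ 3 * h * Real.exp Y :=
    h6.1.trans (mul_le_mul_of_nonneg_right h4 h7.le)
  nlinarith

/-- The integral of the majorant. -/
lemma Zint : ∃ r : ℝ, 0 < r ∧ ∀ ε h β : ℝ, 0 < ε → ε ≤ h → h ≤ r → 0 ≤ β → β < 1 →
    ∫ u in (-(2 * h))..(2 * h), Real.exp (β * (SS (WW ε h) (fun _ => 1) u).re) ≤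
      24 * h / (1 - β) := by
  obtain ⟨r, hr, hall⟩ := SS_one_le
  refine ⟨r / 4, by positivity, ?_⟩
  intro ε h β hε hεh hhr hβ0 hβ1
  have hh : 0 < h := hε.trans_le hεh
  have h3h : 3 * h < r := by linarith
  set f : ℝ → ℝ := fun u => Real.exp (β * (SS (WW ε h) (fun _ => 1) u).re) with hf
  have hcont : Continuous f := by
    have h1 : Continuous fun u : ℝ => SS (WW ε h) (fun _ => 1) u := by
      unfold SS
      refine continuous_tsum (u := fun n => WW ε h n) (fun n => ?_) (WW_summable hε hεh)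
        fun n u => ?_
      · exact continuous_const.mul (continuous_const.mul (ex_cont _))
      · rw [norm_mul, norm_mul, norm_ex, Complex.norm_real, Real.norm_of_nonneg (WW_nonneg hεh n)]
        simp
    fun_prop
  have hle : ∀ u : ℝ, u ≠ 0 → |u| ≤ 2 * h → f u ≤ (12 * h) ^ β * |u| ^ (-β) := by
    intro u hu hu2
    have hu0 : 0 < |u| := abs_pos.2 hu
    have h1 := hall ε h u hε hεh h3h hu hu2
    rw [hf]
    simp only
    calc Real.exp (β * (SS (WW ε h) (fun _ => 1) u).re) ≤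
          Real.exp (β * Real.log (12 * h / |u|)) :=
          Real.exp_le_exp.2 (mul_le_mul_of_nonneg_left h1 hβ0)
      _ = (12 * h / |u|) ^ β := by
          rw [Real.rpow_def_of_pos (by positivity), mul_comm]
      _ = (12 * h) ^ β * |u| ^ (-β) := by
          rw [Real.div_rpow (by positivity) hu0.le, Real.rpow_neg hu0.le, div_eq_mul_inv]
  have hhalf : ∀ g : ℝ → ℝ, Continuous g → (∀ u : ℝ, 0 < u → u ≤ 2 * h →
      g u ≤ (12 * h) ^ β * u ^ (-β)) → ∫ u in (0 : ℝ)..(2 * h), g u ≤ 12 * h / (1 - β) := by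
    intro g hg hgle
    have hint : IntervalIntegrable (fun u : ℝ => (12 * h) ^ β * u ^ (-β)) volume 0 (2 * h) :=
      (intervalIntegral.intervalIntegrable_rpow' (by linarith)).const_mul _
    refine (integral_mono_on_of_le_Ioo (by positivity) (hg.intervalIntegrable _ _) hint
      fun u hu => hgle u hu.1 hu.2.le).trans ?_
    rw [intervalIntegral.integral_const_mul, integral_rpow (Or.inl (by linarith)),
      Real.zero_rpow (by linarith), sub_zero]
    have h1 : (12 * h) ^ β * ((2 * h) ^ (-β + 1) / (-β + 1)) =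
        (12 ^ β * 2 ^ (1 - β)) * h / (1 - β) := by
      rw [Real.mul_rpow (by norm_num) hh.le, Real.mul_rpow (by norm_num) hh.le,
        show -β + 1 = 1 - β by ring]
      have h2 : h ^ β * h ^ (1 - β) = h := by
        rw [← Real.rpow_add hh]
        simp
      calc 12 ^ β * h ^ β * (2 ^ (1 - β) * h ^ (1 - β) / (1 - β)) =
            12 ^ β * 2 ^ (1 - β) * (h ^ β * h ^ (1 - β)) / (1 - β) := by ring
        _ = _ := by rw [h2]
    rw [h1]
    have h2 : (12 : ℝ) ^ β * 2 ^ (1 - β) ≤ 12 := by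
      calc (12 : ℝ) ^ β * 2 ^ (1 - β) ≤ 12 ^ β * 12 ^ (1 - β) := by
            refine mul_le_mul_of_nonneg_left ?_ (by positivity)
            exact Real.rpow_le_rpow (by norm_num) (by norm_num) (by linarith)
        _ = 12 := by
            rw [← Real.rpow_add (by norm_num)]
            simp
    have h3 : 0 < 1 - β := by linarith
    gcongr
  have hsplit : ∫ u in (-(2 * h))..(2 * h), f u =
      (∫ u in (0 : ℝ)..(2 * h), f (-u)) + ∫ u in (0 : ℝ)..(2 * h), f u := by
    rw [integral_comp_neg, neg_zero,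
      integral_add_adjacent_intervals (hcont.intervalIntegrable _ _) (hcont.intervalIntegrable _ _)]
  rw [hsplit]
  have h1 := hhalf (fun u => f (-u)) (by fun_prop) fun u hu hu2 => by
    have := hle (-u) (neg_ne_zero.2 hu.ne') (by rwa [abs_neg, abs_of_pos hu])
    rwa [abs_neg, abs_of_pos hu] at this
  have h2 := hhalf f hcont fun u hu hu2 => by
    have := hle u hu.ne' (by rwa [abs_of_pos hu])
    rwa [abs_of_pos hu] at this
  have h3 : 24 * h / (1 - β) = 12 * h / (1 - β) + 12 * h / (1 - β) := by ring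
  linarith

end Pool.Agent.R385.MW
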